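import Pool.Agent.Helper84.PH.Defs

/-!
# Exclusion arguments when `M` is covered by a space with a holomorphic function with values in the
upper half plane (Liouville)
-/

open scoped Manifold ContDiff Topology
open Set Filter Function

noncomputable section

namespace HolPH

section Lift

variable {N M : Type*} [TopologicalSpace N] [ChartedSpace C3 N] [TopologicalSpace M]
  [ChartedSpace C3 M]

/-- Holomorphic maps from a complex normed space lift to holomorphic maps. -/
theorem exists_holomorphic_lift {A : Type*} [NormedAddCommGroup A] [NormedSpace ℂ A]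
    {q : N → M} (hq : IsLocalDiffeomorph I3 I3 ω q) (hqc : IsCoveringMap q)
    (hqs : Surjective q) {F : A → M} (hF : ContMDiff 𝓘(ℂ, A) I3 ω F) :
    ∃ F' : A → N, ContMDiff 𝓘(ℂ, A) I3 ω F' ∧ ∀ a, q (F' a) = F a := by
  let _ : NormedSpace ℝ A := NormedSpace.restrictScalars ℝ ℂ A
  obtain ⟨e₀, he₀⟩ := hqs (F 0)
  obtain ⟨F', ⟨-, hF'⟩, -⟩ := hqc.existsUnique_continuousMap_lifts ⟨F, hF.continuous⟩ 0 e₀ he₀
  have hF2 : ∀ a, q (F' a) = F a := fun a => congrFun hF' a
  refine ⟨F', ?_, hF2⟩
  intro a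
  have h1 := (hq (F' a)).localInverse_contMDiffAt
  rw [hF2] at h1
  have h2 : ContMDiffAt 𝓘(ℂ, A) I3 ω ((hq (F' a)).localInverse ∘ F) a := h1.comp a (hF a)
  refine h2.congr_of_eventuallyEq ?_
  have h3 : ∀ᶠ b in 𝓝 a, F' b ∈ (hq (F' a)).localInverse.target :=
    F'.continuous.continuousAt.eventually
      ((hq (F' a)).localInverse.open_target.mem_nhds (hq (F' a)).localInverse_mem_target)
  filter_upwards [h3] with b hb
  rw [comp_apply, ← hF2 b, (hq (F' a)).localInverse_left_inv hb]

/-- A holomorphic map from a complex normed space to a space with a holomorphic function to the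
upper half plane: that function is constant along it. -/
theorem eq_of_im_pos {A : Type*} [NormedAddCommGroup A] [NormedSpace ℂ A]
    {ζ : N → ℂ} (hζ : ContMDiff I3 𝓘(ℂ, ℂ) ω ζ) (him : ∀ a, 0 < (ζ a).im)
    {F' : A → N} (hF' : ContMDiff 𝓘(ℂ, A) I3 ω F') (a b : A) : ζ (F' a) = ζ (F' b) := by
  have h1 : ContMDiff 𝓘(ℂ, A) 𝓘(ℂ, ℂ) ω (fun a => ζ (F' a)) := hζ.comp hF'
  have h2 : ContDiff ℂ ω (fun a => ζ (F' a)) := h1.contDiff
  have h3 : Differentiable ℂ (fun a => ζ (F' a)) := h2.differentiable (by simp)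
  have hne : ∀ a, ζ (F' a) + Complex.I ≠ 0 := by
    intro a h
    have := congrArg Complex.im h
    simp at this
    linarith [him (F' a)]
  have h4 : Differentiable ℂ (fun a => (ζ (F' a) + Complex.I)⁻¹) :=
    (h3.add_const _).inv hne
  have h5 : Bornology.IsBounded (range (fun a => (ζ (F' a) + Complex.I)⁻¹)) := by
    rw [isBounded_iff_forall_norm_le]
    refine ⟨1, ?_⟩
    rintro _ ⟨a, rfl⟩
    rw [norm_inv]
    apply inv_le_one_of_one_le₀
    have := Complex.abs_im_le_norm (ζ (F' a) + Complex.I)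
    simp only [Complex.add_im, Complex.I_im] at this
    have h6 := him (F' a)
    rw [abs_of_pos (by linarith)] at this
    linarith
  have h6 := h4.apply_eq_apply_of_bounded h5 a b
  have h7 := inv_injective h6
  exact add_right_cancel h7

end Lift

section Topo

/-- If all leaves `q (X × {x})` are dense and `P : M' → T'` is locally constant along lifted leaves,
then `T'` is finite. -/
theorem finite_of_dense_leaves {X M M' T' : Type*} [TopologicalSpace X] [PreconnectedSpace X]
    [TopologicalSpace M] [T2Space M] [Nonempty M] [TopologicalSpace M'] [CompactSpace M']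
    (q : X × C2 → M) (hq : Continuous q) (hqs : Surjective q)
    (hdense : ∀ x : C2, Dense (range fun ξ : X => q (ξ, x)))
    (p : M' → M) (hp : Continuous p) (hfin : ∀ x, (p ⁻¹' {x}).Finite)
    (P : M' → T') (hPs : Surjective P) (hPc : ∀ c, IsClosed {y | P y = c})
    (hloc : ∀ (y : M') (ξ : X) (x : C2), q (ξ, x) = p y →
      ∀ᶠ ξ' in 𝓝 ξ, ∃ y', p y' = q (ξ', x) ∧ P y' = P y) : Finite T' := by
  have key : ∀ c : T', p '' {y | P y = c} = univ := by
    intro c
    obtain ⟨y, rfl⟩ := hPs c
    obtain ⟨⟨ξ₀, x⟩, hξ₀⟩ := hqs (p y)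
    have hcl : IsClosed (p '' {y' | P y' = P y}) := ((hPc (P y)).isCompact.image hp).isClosed
    set Q : Set X := {ξ | q (ξ, x) ∈ p '' {y' | P y' = P y}} with hQ
    have hQc : IsClosed Q := hcl.preimage (hq.comp (by fun_prop))
    have hQo : IsOpen Q := by
      rw [isOpen_iff_mem_nhds]
      rintro ξ ⟨y₁, hy₁, hpy₁⟩
      filter_upwards [hloc y₁ ξ x hpy₁.symm] with ξ' hξ'
      obtain ⟨y', h1, h2⟩ := hξ'
      exact ⟨y', h2.trans hy₁, h1⟩
    have hQu : Q = univ := IsClopen.eq_univ ⟨hQc, hQo⟩ ⟨ξ₀, y, rfl, hξ₀.symm⟩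
    have hsub : (range fun ξ : X => q (ξ, x)) ⊆ p '' {y' | P y' = P y} := by
      rintro _ ⟨ξ, rfl⟩
      have : ξ ∈ Q := by rw [hQu]; trivial
      exact this
    have := (hdense x).closure_eq
    rw [eq_univ_iff_forall]
    intro m
    have hm : m ∈ closure (range fun ξ : X => q (ξ, x)) := by rw [this]; trivial
    exact hcl.closure_subset_iff.mpr hsub hm
  obtain ⟨m₀⟩ := ‹Nonempty M›
  have := (hfin m₀).to_subtype
  refine Finite.of_surjective (fun y : p ⁻¹' {m₀} => P y) ?_
  intro c
  have : m₀ ∈ p '' {y | P y = c} := by rw [key]; trivial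
  obtain ⟨y, hy, hpy⟩ := this
  exact ⟨⟨y, hpy⟩, hy⟩

/-- `ℂ²/Λ` is infinite for discrete `Λ`. -/
theorem not_finite_quotient (Λ : Submodule ℤ C2) (hΛ : DiscreteTopology Λ) :
    ¬ Finite (C2 ⧸ Λ) := by
  intro hfin
  have hcount : Countable Λ := TopologicalSpace.separableSpace_iff_countable.mp inferInstance
  have h1 : Countable C2 := by
    have : ∀ v : C2, ∃ t : (C2 ⧸ Λ) × Λ, v = Quotient.out t.1 + t.2 := by
      intro v
      have h2 : (Submodule.Quotient.mk v : C2 ⧸ Λ) =
          Submodule.Quotient.mk (Quotient.out (Submodule.Quotient.mk v : C2 ⧸ Λ)) := by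
        exact (Submodule.Quotient.mk_out _).symm
      rw [Submodule.Quotient.eq] at h2
      exact ⟨(Submodule.Quotient.mk v, ⟨_, h2⟩), by simp⟩
    choose F hF using this
    have hinj : Injective F := by
      intro a b hab
      rw [hF a, hF b, hab]
    exact hinj.countable
  have h2 : Uncountable C2 := by
    have : Uncountable ℂ := by
      rw [← Cardinal.aleph0_lt_mk_iff, Cardinal.mk_complex]
      exact Cardinal.aleph0_lt_continuum
    infer_instance
  exact not_countable h1

end Topo

end HolPH
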