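import Pool.Agent.Helper74.NS.Basic

/-!
# Expanding families of permutations for many nodes (project PH, P9)
-/

set_option autoImplicit false

namespace Pool.Agent.Helper84.PH

open Finset Pool.Agent.Helper74.NS

/-- The permutations which map `X` into `Q`. -/
noncomputable def into {N : ℕ} (Q X : Finset (Fin N)) : Finset (Equiv.Perm (Fin N)) :=
  univ.filter (fun g => ∀ u ∈ X, g u ∈ Q)

theorem mem_into {N : ℕ} {Q X : Finset (Fin N)} {g : Equiv.Perm (Fin N)} : g ∈ into Q X ↔ ∀ u ∈ X, g u ∈ Q := by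
  simp [into]

theorem into_step {N : ℕ} (Q X : Finset (Fin N)) (u : Fin N) (hu : u ∉ X) :
    N * (into Q (insert u X)).card ≤ Q.card * (into Q X).card := by
  classical
  set P := into Q (insert u X) with hP
  set P' := (into Q X).filter (fun g => g u ∉ Q) with hP'
  have hPm : ∀ g ∈ P, g u ∈ Q ∧ ∀ x ∈ X, g x ∈ Q := fun g hg =>
    ⟨mem_into.1 hg u (mem_insert_self _ _), fun x hx => mem_into.1 hg x (mem_insert_of_mem hx)⟩
  have hsplit : (into Q X).card = P.card + P'.card := by
    have h1 : (into Q X).filter (fun g => g u ∈ Q) = P := by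
      ext g
      rw [mem_filter, mem_into, hP, mem_into]
      constructor
      · rintro ⟨h1, h2⟩ x hx
        rcases mem_insert.1 hx with rfl | hx
        · exact h2
        · exact h1 x hx
      · intro h
        exact ⟨fun x hx => h x (mem_insert_of_mem hx), h u (mem_insert_self _ _)⟩
    rw [← h1, hP']
    exact (card_filter_add_card_filter_not (s := into Q X) (fun g => g u ∈ Q)).symm
  have hcard : (P ×ˢ Qᶜ).card ≤ (Q ×ˢ P').card := by
    refine card_le_card_of_injOn (fun p => (p.1 u, p.1.trans (Equiv.swap (p.1 u) p.2))) ?_ ?_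
    · rintro ⟨g, v⟩ hp
      obtain ⟨hg, hv⟩ := mem_product.1 (mem_coe.1 hp)
      have hv' : v ∉ Q := mem_compl.1 hv
      refine mem_coe.2 (mem_product.2 ⟨(hPm g hg).1, mem_filter.2 ⟨mem_into.2 fun x hx => ?_, ?_⟩⟩)
      · have h1 := (hPm g hg).2 x hx
        have hne : x ≠ u := fun h => hu (h ▸ hx)
        have h2 : g x ≠ g u := fun h => hne (g.injective h)
        have h3 : g x ≠ v := fun h => hv' (h ▸ h1)
        simp only [Equiv.trans_apply]
        rw [Equiv.swap_apply_of_ne_of_ne h2 h3]
        exact h1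
      · simp only [Equiv.trans_apply, Equiv.swap_apply_left]
        exact hv'
    · rintro ⟨g, v⟩ hp ⟨g', v'⟩ hp' h
      have h1 : g u = g' u := congrArg Prod.fst h
      have h2 : g.trans (Equiv.swap (g u) v) = g'.trans (Equiv.swap (g' u) v') := congrArg Prod.snd h
      have h3 : v = v' := by
        have := congrArg (fun e : Equiv.Perm (Fin N) => e u) h2
        simpa [Equiv.trans_apply, Equiv.swap_apply_left] using this
      subst h3
      rw [← h1] at h2
      have h4 : g = g' := by
        ext x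
        have h5 := congrArg (fun e : Equiv.Perm (Fin N) => e x) h2
        simp only [Equiv.trans_apply] at h5
        rw [(Equiv.swap (g u) v).injective h5]
      rw [h4]
  rw [card_product, card_product, card_compl, Fintype.card_fin] at hcard
  have hQN : Q.card ≤ N := by simpa using card_le_univ Q
  obtain ⟨c, hc⟩ : ∃ c, N = Q.card + c := ⟨N - Q.card, by omega⟩
  have hc' : N - Q.card = c := by omega
  rw [hc'] at hcard
  rw [hsplit]
  have hNP : N * P.card = (Q.card + c) * P.card := congrArg (· * P.card) hc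
  calc N * P.card = Q.card * P.card + P.card * c := by rw [hNP]; ring
    _ ≤ Q.card * P.card + Q.card * P'.card := Nat.add_le_add_left hcard _
    _ = Q.card * (P.card + P'.card) := by ring

theorem card_into {N : ℕ} (Q X : Finset (Fin N)) :
    N ^ X.card * (into Q X).card ≤ Q.card ^ X.card * N.factorial := by
  classical
  induction X using Finset.induction_on with
  | empty =>
    have h : (into Q (∅ : Finset (Fin N))).card ≤ Fintype.card (Equiv.Perm (Fin N)) := card_le_univ _
    rw [Fintype.card_perm, Fintype.card_fin] at h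
    simpa using h
  | insert u X hu ih =>
    rw [card_insert_of_notMem hu, pow_succ, pow_succ]
    calc N ^ X.card * N * (into Q (insert u X)).card = N ^ X.card * (N * (into Q (insert u X)).card) := by ring
      _ ≤ N ^ X.card * (Q.card * (into Q X).card) := Nat.mul_le_mul_left _ (into_step Q X u hu)
      _ = Q.card * (N ^ X.card * (into Q X).card) := by ring
      _ ≤ Q.card * (Q.card ^ X.card * N.factorial) := Nat.mul_le_mul_left _ ih
      _ = Q.card ^ X.card * Q.card * N.factorial := by ring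

/-- A bound for binomial coefficients. -/
theorem choose_le (c k : ℕ) : (((c * k).choose k : ℕ) : ℝ) ≤ ((c : ℝ) * Real.exp 1) ^ k := by
  have h1 := Nat.choose_le_pow_div (α := ℝ) k (c * k)
  have h2 := Real.pow_div_factorial_le_exp (k : ℝ) (Nat.cast_nonneg k) k
  calc (((c * k).choose k : ℕ) : ℝ) ≤ ((c * k : ℕ) : ℝ) ^ k / k.factorial := h1
    _ = (c : ℝ) ^ k * ((k : ℝ) ^ k / k.factorial) := by push_cast; rw [mul_pow]; ring
    _ ≤ (c : ℝ) ^ k * Real.exp k := mul_le_mul_of_nonneg_left h2 (by positivity)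
    _ = ((c : ℝ) * Real.exp 1) ^ k := by
        rw [mul_pow, ← Real.exp_nat_mul, mul_one]

theorem numbers (a W : ℕ) (ha : 1 ≤ a) (hW : 1 ≤ W) :
    (8 * a * W).choose a * (8 * a * W).choose (4 * a) < (2 * W) ^ (15 * a) := by
  have h1 := choose_le (8 * W) a
  have h2 := choose_le (2 * W) (4 * a)
  rw [show 8 * W * a = 8 * a * W by ring] at h1
  rw [show 2 * W * (4 * a) = 8 * a * W by ring] at h2
  have he := Real.exp_one_lt_d9
  have he0 := Real.exp_pos 1
  have hW' : (1 : ℝ) ≤ W := by exact_mod_cast hW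
  have h5 : Real.exp 1 ^ 5 < 256 := by
    calc Real.exp 1 ^ 5 < (2.7182818286 : ℝ) ^ 5 := pow_lt_pow_left₀ he he0.le (by norm_num)
      _ < 256 := by norm_num
  have h6 : ((8 * W : ℕ) : ℝ) * Real.exp 1 * (((2 * W : ℕ) : ℝ) * Real.exp 1) ^ 4 < ((2 * W : ℕ) : ℝ) ^ 15 := by
    push_cast
    have e1 : 8 * (W : ℝ) * Real.exp 1 * (2 * (W : ℝ) * Real.exp 1) ^ 4 = 128 * (W : ℝ) ^ 5 * Real.exp 1 ^ 5 := by ring
    have e2 : (2 * (W : ℝ)) ^ 15 = 128 * (W : ℝ) ^ 5 * (256 * (W : ℝ) ^ 10) := by ring
    rw [e1, e2]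
    have hW10 : (1 : ℝ) ≤ (W : ℝ) ^ 10 := one_le_pow₀ hW'
    have hpos : (0 : ℝ) < 128 * (W : ℝ) ^ 5 := by positivity
    exact mul_lt_mul_of_pos_left (by nlinarith) hpos
  have h7 : (((8 * a * W).choose a * (8 * a * W).choose (4 * a) : ℕ) : ℝ) < (((2 * W) ^ (15 * a) : ℕ) : ℝ) := by
    push_cast
    push_cast at h1 h2 h6
    calc (((8 * a * W).choose a : ℕ) : ℝ) * (((8 * a * W).choose (4 * a) : ℕ) : ℝ)
        ≤ (8 * (W : ℝ) * Real.exp 1) ^ a * (2 * (W : ℝ) * Real.exp 1) ^ (4 * a) :=
          mul_le_mul h1 h2 (Nat.cast_nonneg _) (by positivity)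
      _ = (8 * (W : ℝ) * Real.exp 1 * (2 * (W : ℝ) * Real.exp 1) ^ 4) ^ a := by rw [pow_mul, ← mul_pow]
      _ < ((2 * (W : ℝ)) ^ 15) ^ a := pow_lt_pow_left₀ h6 (by positivity) (by omega)
      _ = (2 * (W : ℝ)) ^ (15 * a) := by rw [← pow_mul]
  exact_mod_cast h7

/-- P9: expanding permutations for more nodes. -/
theorem exists_perms (a W : ℕ) (ha : 1 ≤ a) (hW : 1 ≤ W) :
    ∃ g : Fin 15 → Equiv.Perm (Fin (8 * a * W)), Expands g a := by
  classical
  by_contra hcon
  push Not at hcon
  set N := 8 * a * W with hN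
  have hN8 : 8 * a ≤ N := Nat.le_mul_of_pos_right _ hW
  have hcover : (univ : Finset (Fin 15 → Equiv.Perm (Fin N))) ⊆
      ((powersetCard a (univ : Finset (Fin N))) ×ˢ (powersetCard (4 * a) (univ : Finset (Fin N)))).biUnion
        (fun p => Fintype.piFinset (fun _ : Fin 15 => into p.2 p.1)) := by
    intro g _
    have hg := hcon g
    unfold Expands at hg
    push Not at hg
    obtain ⟨X, hX, hlt⟩ := hg
    obtain ⟨Y, hYX, hYc⟩ := exists_subset_card_eq hX
    obtain ⟨Q, hQ, -, hQc⟩ := exists_subsuperset_card_eq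
      (subset_univ (univ.filter (fun v => ∃ s, ∃ u ∈ X, g s u = v))) hlt.le
      (by rw [card_univ, Fintype.card_fin]; omega)
    rw [mem_biUnion]
    refine ⟨(Y, Q), ?_, ?_⟩
    · rw [mem_product]
      exact ⟨mem_powersetCard.2 ⟨subset_univ _, hYc⟩, mem_powersetCard.2 ⟨subset_univ _, hQc⟩⟩
    · rw [Fintype.mem_piFinset]
      intro s
      exact mem_into.2 fun u hu => hQ (mem_filter.2 ⟨mem_univ _, s, u, hYX hu, rfl⟩)
  have h1 := card_le_card hcover
  have h2 := h1.trans card_biUnion_le
  have h3 : ∀ p ∈ (powersetCard a (univ : Finset (Fin N))) ×ˢ (powersetCard (4 * a) (univ : Finset (Fin N))),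
      (Fintype.piFinset (fun _ : Fin 15 => into p.2 p.1)).card * (2 * W) ^ (15 * a) ≤ N.factorial ^ 15 := by
    intro p hp
    rw [mem_product] at hp
    have hc := (mem_powersetCard.1 hp.1).2
    have hq := (mem_powersetCard.1 hp.2).2
    have h4 := card_into p.2 p.1
    rw [hc, hq] at h4
    have h5 : (2 * W) ^ a * (into p.2 p.1).card ≤ N.factorial := by
      have h6 : N ^ a = (4 * a) ^ a * (2 * W) ^ a := by
        rw [← mul_pow, hN]
        congr 1
        ring
      rw [h6, mul_assoc] at h4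
      exact Nat.le_of_mul_le_mul_left h4 (by positivity)
    rw [Fintype.card_piFinset]
    simp only [prod_const, card_univ, Fintype.card_fin]
    calc (into p.2 p.1).card ^ 15 * (2 * W) ^ (15 * a) = ((2 * W) ^ a * (into p.2 p.1).card) ^ 15 := by
          generalize 2 * W = w
          ring
      _ ≤ N.factorial ^ 15 := Nat.pow_le_pow_left h5 15
  have hu : (univ : Finset (Fin 15 → Equiv.Perm (Fin N))).card = N.factorial ^ 15 := by
    rw [card_univ, Fintype.card_fun, Fintype.card_perm, Fintype.card_fin, Fintype.card_fin]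
  rw [hu] at h2
  have h5 : N.factorial ^ 15 * (2 * W) ^ (15 * a) ≤ (N.choose a * N.choose (4 * a)) * N.factorial ^ 15 := by
    calc N.factorial ^ 15 * (2 * W) ^ (15 * a)
        ≤ (∑ p ∈ (powersetCard a (univ : Finset (Fin N))) ×ˢ (powersetCard (4 * a) (univ : Finset (Fin N))),
            (Fintype.piFinset (fun _ : Fin 15 => into p.2 p.1)).card) * (2 * W) ^ (15 * a) :=
          Nat.mul_le_mul_right _ h2
      _ = ∑ p ∈ (powersetCard a (univ : Finset (Fin N))) ×ˢ (powersetCard (4 * a) (univ : Finset (Fin N))),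
            (Fintype.piFinset (fun _ : Fin 15 => into p.2 p.1)).card * (2 * W) ^ (15 * a) := by rw [sum_mul]
      _ ≤ ∑ _p ∈ (powersetCard a (univ : Finset (Fin N))) ×ˢ (powersetCard (4 * a) (univ : Finset (Fin N))),
            N.factorial ^ 15 := sum_le_sum h3
      _ = (N.choose a * N.choose (4 * a)) * N.factorial ^ 15 := by
          rw [sum_const, card_product, card_powersetCard, card_powersetCard, card_univ, Fintype.card_fin,
            smul_eq_mul]
  have hfac : 0 < N.factorial ^ 15 := by positivity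
  have h6 : (2 * W) ^ (15 * a) ≤ N.choose a * N.choose (4 * a) := by
    refine Nat.le_of_mul_le_mul_right ?_ hfac
    rw [mul_comm]
    exact h5
  exact absurd (numbers a W ha hW) (not_lt.2 h6)

end Pool.Agent.Helper84.PH
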