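import Pool.Agent.Helper96.PH.Defs
import Pool.Agent.Helper84.NW.Row

/-!
# The deterministic program which keeps one row (project PH, P11b)
-/

set_option autoImplicit false
set_option linter.unusedSectionVars false

namespace Pool.Agent.Helper84.PH

open Pool.Agent.Helper74.NW Pool.Agent.Helper74.NE Pool.Agent.Helper19.NF Pool.Agent.Helper96.PH
open Pool.Agent.Helper84.NW (Ins exec qs exec_append length_qs rows exec_rows length_rows script_program Mem)

variable {U D B G : Type} [Fintype U] [Fintype D] [AddCommGroup B] [AddCommGroup G]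

/-- An instruction for the first entries, as an instruction for both entries. -/
def lift {M : Type} (p : Ins B (D → B) M) : Ins B ((D → B) × G) (M × G) :=
  (fun m => p.1 m.1, fun m w => (p.2 m.1 w.1, m.2))

theorem exec_lift {M : Type} (J : B → (D → B) × G) (L : List (Ins B (D → B) M)) (m : M) (γ : G) :
    exec J (L.map lift) (m, γ) = (exec (fun b => (J b).1) L m, γ) := by
  induction L generalizing m with
  | nil => rfl
  | cons p L ih => exact ih _

/-- Add the second entry of the cell found at the place `v` of the row. -/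
def sumIns (v : U) : Ins B ((D → B) × G) (Mem U B × G) := (fun m => m.1.2 v, fun m w => (m.1, m.2 + w.2))

theorem exec_sum (J : B → (D → B) × G) (l : List U) (m : Mem U B) (γ : G) :
    exec J (l.map sumIns) (m, γ) = (m, γ + (l.map (fun v => (J (m.2 v)).2)).sum) := by
  induction l generalizing γ with
  | nil => simp [exec]
  | cons p l ih =>
    simp only [List.map_cons, exec, List.sum_cons]
    change exec J (l.map sumIns) (m, γ + (J (m.2 p)).2) = _
    rw [ih, add_assoc]

/-- The whole list of instructions. -/
noncomputable def script (g : D → Equiv.Perm U) (R : ℕ) : List (Ins B ((D → B) × G) (Mem U B × G)) :=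
  (rows g (R + 1)).map lift ++ (Finset.univ : Finset U).toList.map sumIns

theorem length_script (g : D → Equiv.Perm U) (R : ℕ) :
    (script g R : List (Ins B ((D → B) × G) (Mem U B × G))).length = (R + 2) * Fintype.card U := by
  rw [script, List.length_append, List.length_map, length_rows, List.length_map, Finset.length_toList,
    Finset.card_univ]
  ring

theorem exec_script (g : D → Equiv.Perm U) (x0 : U → B) (R : ℕ) (J : B → (D → B) × G) :
    (exec J (script g R) (((0, x0), 0) : Mem U B × G)).2 =
      ∑ v, (J (val g x0 (fun b => (J b).1) (R + 1) v)).2 := by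
  rw [script, exec_append, exec_lift, exec_sum, Finset.sum_map_toList]
  simp only [zero_add]
  rcases isEmpty_or_nonempty U with h | h
  · rw [Finset.univ_eq_empty, Finset.sum_empty, Finset.sum_empty]
  · rw [exec_rows]

variable {n d m : ℕ} [NeZero m]

/-- P11b (helper84): the row program, without store. -/
theorem row_program [Fintype B] [Fintype G] (g : Fin d → Equiv.Perm (Fin n)) (x0 : Fin n × Fin m → B) (R : ℕ)
    (hG : Fintype.card G ≤ Fintype.card B) (hB : (R + 2) * (n * m) ≤ Fintype.card B) :
    ∃ (S : ℕ) (P : NProg B ((Fin d × Fin m → B) × G) G S), S ≤ (2 * Fintype.card B) ^ (2 * (n * m) + 2) ∧ Det P ∧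
      ∀ J, (∃ l, P.Ends J l (out g x0 R J)) ∧ (∀ l z, P.Ends J l z → z = out g x0 R J) ∧
        ∀ l z, P.Ends J l z → l.length ≤ (R + 2) * (n * m) := by
  classical
  have hB0 : 1 ≤ Fintype.card B := Fintype.card_pos_iff.mpr ⟨0⟩
  have hU : Fintype.card (Fin n × Fin m) = n * m := by
    rw [Fintype.card_prod, Fintype.card_fin, Fintype.card_fin]
  have hlen : (script (fine g) R : List (Ins B ((Fin d × Fin m → B) × G) (Mem (Fin n × Fin m) B × G))).length =
      (R + 2) * (n * m) := by
    rw [length_script, hU]
  obtain ⟨P, hP, h⟩ := script_program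
    (script (fine g) R : List (Ins B ((Fin d × Fin m → B) × G) (Mem (Fin n × Fin m) B × G)))
    ((0, x0), 0) (fun m => m.2)
  have hex : ∀ J : B → (Fin d × Fin m → B) × G,
      (exec J (script (fine g) R) (((0, x0), 0) : Mem (Fin n × Fin m) B × G)).2 = out g x0 R J :=
    fun J => exec_script (fine g) x0 R J
  have huniq : ∀ J l z, P.Ends J l z → l = qs J (script (fine g) R) (((0, x0), 0) : Mem (Fin n × Fin m) B × G) ∧
      z = out g x0 R J := by
    intro J l z hl
    obtain ⟨t, h1, h2⟩ := h J
    obtain ⟨t', h1', h2'⟩ := hl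
    simp only [hex] at h2
    exact hP.unique h1 h2 h1' h2'
  refine ⟨_, P, ?_, fun s c next hs x => ?_, fun J => ⟨⟨_, hex J ▸ h J⟩, fun l z hl => (huniq J l z hl).2, fun l z hl => ?_⟩⟩
  · have hcard : Fintype.card (Mem (Fin n × Fin m) B × G) = Fintype.card B ^ (2 * (n * m)) * Fintype.card G := by
      rw [Fintype.card_prod, Fintype.card_prod, Fintype.card_fun, hU, ← pow_add, two_mul]
    rw [hlen, hcard]
    calc ((R + 2) * (n * m) + 1) * (Fintype.card B ^ (2 * (n * m)) * Fintype.card G)
        ≤ (2 * Fintype.card B) * ((2 * Fintype.card B) ^ (2 * (n * m)) * (2 * Fintype.card B)) :=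
          Nat.mul_le_mul (by omega) (Nat.mul_le_mul (Nat.pow_le_pow_left (by omega) _) (by omega))
      _ = (2 * Fintype.card B) ^ (2 * (n * m) + 2) := by ring
  · obtain ⟨t, ht⟩ := hP s c next hs x
    rw [ht]
    exact Set.subsingleton_singleton
  · rw [(huniq J l z hl).1, length_qs, hlen]

end Pool.Agent.Helper84.PH
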