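import Pool.Agent.Helper84.PH.Defs
import Pool.Agent.Helper77.PH.Map

/-!
# The closed holomorphic 1-form `dz` on the threefold: local primitives
-/

open scoped Manifold ContDiff Topology
open Set Filter Function

noncomputable section

namespace HolPH

/-- pull-back of local primitives -/
theorem IsLocalPrimitive.comp {M M' : Type*} [TopologicalSpace M] [ChartedSpace C3 M]
    [IsManifold I3 ω M] [TopologicalSpace M'] [ChartedSpace C3 M'] {h : M → M → ℂ}
    (hh : IsLocalPrimitive h) {p : M' → M} (hp : ContMDiff I3 I3 ω p) :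
    IsLocalPrimitive (fun y y' => h (p y) (p y')) where
  holo y := (hh.holo (p y)).comp y (hp y)
  compat y := by
    have h1 := hp.continuous.continuousAt.eventually (hh.compat (p y))
    have h2 := hp.continuous.continuousAt.eventually
      ((contMDiffAt_iff_contMDiffAt_nhds (by simp)).1 (hh.holo (p y)))
    filter_upwards [h1, h2] with y' h3 h4 v
    have e1 := mfderiv_comp_apply y' (h4.mdifferentiableAt (by simp))
      ((hp y').mdifferentiableAt (by simp)) v
    have e2 := mfderiv_comp_apply y' ((hh.holo (p y')).mdifferentiableAt (by simp))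
      ((hp y').mdifferentiableAt (by simp)) v
    refine Eq.trans e1 (Eq.trans ?_ e2.symm)
    exact h3 _

open Pool.Agent.Helper77.PH in
/-- `z` on the covering space -/
def zN (x : N) : ℂ := x.1.z

open Pool.Agent.Helper77.PH in
theorem contMDiff_zN : ContMDiff I3 𝓘(ℂ, ℂ) ω zN := by
  have h : ContMDiff (𝓘(ℂ, ℂ).prod 𝓘(ℂ, ℂ × ℂ)) 𝓘(ℂ, ℂ) ω
      (fun x : X × (ℂ × ℂ) => x.1.z) := contMDiff_z.comp contMDiff_fst
  rw [← modelWithCornersSelf_prod] at h
  exact h

open Pool.Agent.Helper77.PH in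
/-- local primitives of the form `dz` on the threefold -/
def hM (m m' : M) : ℂ :=
  zN ((isLocalDiffeomorph_pM (surjInv surjective_pM m)).localInverse m')

open Pool.Agent.Helper77.PH in
theorem hM_holo (m : M) : ContMDiffAt I3 𝓘(ℂ, ℂ) ω (hM m) m := by
  have h1 := (isLocalDiffeomorph_pM (surjInv surjective_pM m)).localInverse_contMDiffAt
  rw [surjInv_eq surjective_pM m] at h1
  exact (contMDiff_zN _).comp m h1

open Pool.Agent.Helper77.PH in
/-- the differential of `hM m` at `m'` is `dz` read in any lift. -/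
theorem mfderiv_hM_pM (x : N) (v : TangentSpace I3 x) :
    (mfderiv I3 𝓘(ℂ, ℂ) (hM (pM x)) (pM x) (mfderiv I3 I3 pM x v) : ℂ)
      = (mfderiv I3 𝓘(ℂ, ℂ) zN x v : ℂ) := by
  set a := surjInv surjective_pM (pM x) with ha
  have hpa : pM a = pM x := surjInv_eq surjective_pM (pM x)
  obtain ⟨g, hg⟩ := pM_eq_iff.1 hpa.symm
  -- near `x`, `hM (pM x) (pM y) = zN (g • y)`
  have hs := isLocalDiffeomorph_pM a
  have h1 : ∀ᶠ y in 𝓝 x, g • y ∈ hs.localInverse.target := by
    have hc : ContinuousAt (fun y : N => g • y) x := (contMDiff_smul_G g).continuous.continuousAt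
    refine hc.eventually (hs.localInverse.open_target.mem_nhds ?_)
    show g • x ∈ _
    rw [hg]
    exact hs.localInverse_mem_target
  have h2 : (fun y : N => hM (pM x) (pM y)) =ᶠ[𝓝 x] fun y => zN y + ((g.m : ℂ) + g.n * Complex.I) := by
    filter_upwards [h1] with y hy
    have e1 : hs.localInverse (pM y) = g • y := by
      rw [← pM_smul g y]
      exact hs.localInverse_left_inv hy
    show zN (hs.localInverse (pM y)) = _
    rw [e1]
    rfl
  have h3 : mfderiv I3 𝓘(ℂ, ℂ) (fun y : N => hM (pM x) (pM y)) x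
      = mfderiv I3 𝓘(ℂ, ℂ) zN x := by
    rw [h2.mfderiv_eq]
    have h4 : HasMFDerivAt I3 𝓘(ℂ, ℂ) zN x (mfderiv I3 𝓘(ℂ, ℂ) zN x) :=
      ((contMDiff_zN x).mdifferentiableAt (by simp)).hasMFDerivAt
    have h5 := h4.add (hasMFDerivAt_const (I := I3) (I' := 𝓘(ℂ, ℂ)) ((g.m : ℂ) + g.n * Complex.I) x)
    have h6 := h5.mfderiv
    refine Eq.trans h6 ?_
    exact add_zero _
  have h7 := mfderiv_comp_apply x (g := hM (pM x)) (f := pM)
    ((hM_holo (pM x)).mdifferentiableAt (by simp))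
    ((isLocalDiffeomorph_pM.contMDiff x).mdifferentiableAt (by simp)) v
  have h8 : (mfderiv I3 𝓘(ℂ, ℂ) (hM (pM x) ∘ pM) x v : ℂ) = (mfderiv I3 𝓘(ℂ, ℂ) zN x v : ℂ) := by
    have : hM (pM x) ∘ pM = fun y : N => hM (pM x) (pM y) := rfl
    rw [this, h3]
    rfl
  rw [← h8]
  exact h7.symm

open Pool.Agent.Helper77.PH in
theorem isLocalPrimitive_hM : IsLocalPrimitive hM where
  holo := hM_holo
  compat m := by
    set a := surjInv surjective_pM m with ha
    have hpa : pM a = m := surjInv_eq surjective_pM m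
    have hs := isLocalDiffeomorph_pM a
    have hmem : m ∈ hs.localInverse.source := by
      have := hs.localInverse_mem_source
      rwa [hpa] at this
    filter_upwards [hs.localInverse.open_source.mem_nhds hmem] with y hy v
    -- a lift of `y`
    set x := hs.localInverse y with hx
    have hpx : pM x = y := hs.localInverse_right_inv hy
    have hsy : ContMDiffAt I3 I3 ω hs.localInverse y :=
      hs.localInverse_contMDiffOn.contMDiffAt (hs.localInverse.open_source.mem_nhds hy)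
    have e1 : (mfderiv I3 𝓘(ℂ, ℂ) (hM m) y v : ℂ)
        = (mfderiv I3 𝓘(ℂ, ℂ) zN x (mfderiv I3 I3 hs.localInverse y v) : ℂ) :=
      mfderiv_comp_apply y ((contMDiff_zN _).mdifferentiableAt (by simp))
        (hsy.mdifferentiableAt (by simp)) v
    have e2 := mfderiv_hM_pM x (mfderiv I3 I3 hs.localInverse y v)
    have e3 : (mfderiv I3 I3 pM x (mfderiv I3 I3 hs.localInverse y v) : C3) = (v : C3) := by
      have h1 := mfderiv_comp_apply y (g := pM) (f := hs.localInverse)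
        ((isLocalDiffeomorph_pM.contMDiff _).mdifferentiableAt (by simp))
        (hsy.mdifferentiableAt (by simp)) v
      have h2 : (pM ∘ hs.localInverse) =ᶠ[𝓝 y] id := by
        filter_upwards [hs.localInverse.open_source.mem_nhds hy] with y' hy'
        exact hs.localInverse_right_inv hy'
      have h3 : (mfderiv I3 I3 (pM ∘ hs.localInverse) y v : C3) = (v : C3) := by
        rw [h2.mfderiv_eq, mfderiv_id]
        rfl
      exact h1.symm.trans h3
    -- transport along `pM x = y`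
    have key : ∀ (y' : M) (hy' : pM x = y') (u : C3),
        (mfderiv I3 𝓘(ℂ, ℂ) (hM (pM x)) (pM x) u : ℂ) = (mfderiv I3 𝓘(ℂ, ℂ) (hM y') y' u : ℂ) := by
      rintro y' rfl u
      rfl
    have e4 : (mfderiv I3 𝓘(ℂ, ℂ) (hM (pM x)) (pM x) (mfderiv I3 I3 pM x
        (mfderiv I3 I3 hs.localInverse y v)) : ℂ) = (mfderiv I3 𝓘(ℂ, ℂ) (hM (pM x)) (pM x) (v : C3) : ℂ) :=
      congrArg (fun u : C3 => (mfderiv I3 𝓘(ℂ, ℂ) (hM (pM x)) (pM x) u : ℂ)) e3
    exact (e1.trans e2.symm).trans (e4.trans (key y hpx v))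

open Pool.Agent.Helper77.PH in
theorem mfderiv_zN (x : N) (v : TangentSpace I3 x) :
    (mfderiv I3 𝓘(ℂ, ℂ) zN x v : ℂ) = (mfderiv 𝓘(ℂ, ℂ) 𝓘(ℂ, ℂ) X.z x.1 (v : C3).1 : ℂ) := by
  have h : ∀ (y : X × (ℂ × ℂ)) (u : C3), (mfderiv (𝓘(ℂ, ℂ).prod 𝓘(ℂ, ℂ × ℂ)) 𝓘(ℂ, ℂ)
      (fun x : X × (ℂ × ℂ) => x.1.z) y u : ℂ)
      = (mfderiv 𝓘(ℂ, ℂ) 𝓘(ℂ, ℂ) X.z y.1 u.1 : ℂ) := by
    intro y u
    have h1 := mfderiv_comp_apply (I := 𝓘(ℂ, ℂ).prod 𝓘(ℂ, ℂ × ℂ)) (I' := 𝓘(ℂ, ℂ))
      (I'' := 𝓘(ℂ, ℂ)) (f := (Prod.fst : X × (ℂ × ℂ) → X)) (g := X.z) y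
      ((contMDiff_z _).mdifferentiableAt (by simp))
      ((contMDiff_fst (n := ω) y).mdifferentiableAt (by simp)) u
    refine Eq.trans h1 ?_
    rw [mfderiv_fst]
    rfl
  rw [← modelWithCornersSelf_prod] at h
  exact h x v

open Pool.Agent.Helper77.PH in
theorem mfderiv_pM_surjective (x : N) (v : TangentSpace I3 (pM x)) :
    ∃ u : TangentSpace I3 x, mfderiv I3 I3 pM x u = v := by
  have h : Surjective (mfderiv I3 I3 pM x) := by
    rw [← isLocalDiffeomorph_pM.mfderivToContinuousLinearEquiv_coe (by simp) x]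
    exact (isLocalDiffeomorph_pM.mfderivToContinuousLinearEquiv (by simp) x).surjective
  exact h v

open Pool.Agent.Helper77.PH in
/-- at branch points the 1-form vanishes -/
theorem zero_hM {x : N} (hx : x.1.w = 0) (v : TangentSpace I3 (pM x)) :
    (mfderiv I3 𝓘(ℂ, ℂ) (hM (pM x)) (pM x) v : ℂ) = 0 := by
  obtain ⟨u, rfl⟩ := mfderiv_pM_surjective x v
  rw [mfderiv_hM_pM, mfderiv_zN, mfderiv_z_eq_zero hx]
  rfl

open Pool.Agent.Helper77.PH in
/-- off the branch points the 1-form is the first coordinate -/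
theorem ne_hM {x : N} (hx : x.1.w ≠ 0) (u : TangentSpace I3 x) :
    (mfderiv I3 𝓘(ℂ, ℂ) (hM (pM x)) (pM x) (mfderiv I3 I3 pM x u) : ℂ) = (u : C3).1 := by
  rw [mfderiv_hM_pM, mfderiv_zN]
  exact mfderiv_z_ne_zero hx _

open Pool.Agent.Helper77.PH in
theorem dense_w_ne : Dense {x : X | x.w ≠ 0} := by
  rw [dense_iff_inter_open]
  intro U hU ⟨x, hx⟩
  by_contra hcon
  rw [Set.not_nonempty_iff_eq_empty, Set.eq_empty_iff_forall_notMem] at hcon
  have h1 : ∀ y ∈ U, y.w = 0 := by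
    intro y hy
    by_contra h
    exact hcon y ⟨hy, h⟩
  have h2 : IsOpen (X.z '' U) := isOpenMap_z U hU
  have h3 : ∀ b ∈ X.z '' U, gg b = 0 := by
    rintro _ ⟨y, hy, rfl⟩
    exact X.gg_z (h1 y hy)
  obtain ⟨ε, hε, hball⟩ := Metric.isOpen_iff.1 h2 x.z ⟨x, hx, rfl⟩
  set δ : ℝ := min (ε / 2) (1 / 8) with hδ
  have hδ0 : 0 < δ := by rw [hδ]; positivity
  have hδ1 : δ ≤ 1 / 8 := min_le_right _ _
  have h4 : x.z + (δ : ℂ) ∈ Metric.ball x.z ε := by
    rw [Metric.mem_ball, dist_eq_norm]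
    have : x.z + (δ : ℂ) - x.z = (δ : ℂ) := by ring
    rw [this, Complex.norm_real, Real.norm_of_nonneg hδ0.le]
    have := min_le_left (ε / 2) (1 / 8)
    rw [hδ]; linarith
  have h5 := h3 _ (hball h4)
  have h6 := h3 _ ⟨x, hx, rfl⟩
  obtain ⟨k, l, hkl⟩ := (gg_eq_zero_iff _).1 h5
  obtain ⟨k', l', hkl'⟩ := (gg_eq_zero_iff _).1 h6
  have h7 : ((k : ℝ) - k') / 2 = δ := by
    have e1 := congrArg Complex.re hkl
    have e2 := congrArg Complex.re hkl'
    simp at e1 e2
    linarith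
  have h8 : (0 : ℝ) < (k - k' : ℤ) := by push_cast; linarith
  have h9 : ((k - k' : ℤ) : ℝ) < 1 := by push_cast; linarith
  have h10 : (0 : ℤ) < k - k' := by exact_mod_cast h8
  have h11 : (k - k' : ℤ) < 1 := by exact_mod_cast h9
  omega

open Pool.Agent.Helper77.PH in
theorem dense_image_w_ne : Dense (pM '' {x : N | x.1.w ≠ 0}) := by
  have h1 : Dense {x : N | x.1.w ≠ 0} := by
    have h2 : IsOpenMap (fun x : N => x.1) := isOpenMap_fst
    exact dense_w_ne.preimage h2
  exact surjective_pM.denseRange.dense_image continuous_pM h1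

end HolPH
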