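import Pool.Agent.Helper84.PH.Common
import Pool.Agent.Helper84.PH.Prim
import Pool.Agent.Helper55.PH.EX3
import Pool.Agent.Helper66.PH.EX1
import Pool.Agent.Helper25.PH.EX3b
import Pool.Agent.Helper67.PH.EX2cd

/-!
# Final assembly for the flat torus bundle over a curve of genus 3, given the frame
-/

open scoped Manifold ContDiff Topology
open Set Filter Function

noncomputable section

namespace HolPH

universe u

open Pool.Agent.Helper77.PH

/-- points of the covering space -/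
def mkN (ξ : X) (x : C2) : N := (ξ, x)

theorem contMDiff_slice (x : C2) : ContMDiff 𝓘(ℂ, ℂ) I3 ω (fun ξ : X => mkN ξ x) := by
  have h : ContMDiff 𝓘(ℂ, ℂ) (𝓘(ℂ, ℂ).prod 𝓘(ℂ, ℂ × ℂ)) ω
      (fun ξ : X => ((ξ, x) : X × (ℂ × ℂ))) := contMDiff_id.prodMk contMDiff_const
  rw [← modelWithCornersSelf_prod] at h
  exact h

theorem mfderiv_slice (x : C2) (ξ : X) (v : ℂ) :
    (mfderiv 𝓘(ℂ, ℂ) I3 (fun ξ : X => mkN ξ x) ξ v : C3) = (v, 0) := by
  have h : ∀ (v : ℂ), (mfderiv 𝓘(ℂ, ℂ) (𝓘(ℂ, ℂ).prod 𝓘(ℂ, ℂ × ℂ))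
      (fun ξ : X => ((ξ, x) : X × (ℂ × ℂ))) ξ v : C3) = (v, 0) := by
    intro v
    rw [mfderiv_prod_left]
    rfl
  rw [← modelWithCornersSelf_prod] at h
  exact h v

theorem mfderiv_leaf (x : C2) (ξ : X) (v : ℂ) :
    (mfderiv 𝓘(ℂ, ℂ) I3 (fun ξ : X => pM (mkN ξ x)) ξ v : C3)
      = (mfderiv I3 I3 pM (mkN ξ x) ((v, 0) : C3) : C3) := by
  have h1 := mfderiv_comp_apply ξ (g := pM) (f := fun ξ : X => mkN ξ x)
    ((isLocalDiffeomorph_pM.contMDiff _).mdifferentiableAt (by simp))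
    ((contMDiff_slice x ξ).mdifferentiableAt (by simp)) v
  refine Eq.trans h1 ?_
  exact congrArg (fun u : C3 => (mfderiv I3 I3 pM (mkN ξ x) u : C3)) (mfderiv_slice x ξ v)

theorem statement_of_frame
    (L : ∀ x : M, TangentSpace I3 x ≃ₗ[ℂ] C3)
    (hc : Continuous fun p : TangentBundle I3 M => ‖(L p.1 p.2).1‖)
    (hs : Continuous fun p : TangentBundle I3 M => ‖(L p.1 p.2).2.1‖)
    (hu : Continuous fun p : TangentBundle I3 M => ‖(L p.1 p.2).2.2‖)
    (a : ℝ) (ha0 : 0 < a) (ha1 : a < 1)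
    (fc : ∀ (x : M) (v : TangentSpace I3 x), ‖(L (fM x) (mfderiv I3 I3 fM x v)).1‖ = ‖(L x v).1‖)
    (fs : ∀ (x : M) (v : TangentSpace I3 x),
      ‖(L (fM x) (mfderiv I3 I3 fM x v)).2.1‖ = a * ‖(L x v).2.1‖)
    (fu : ∀ (x : M) (v : TangentSpace I3 x),
      ‖(L (fM x) (mfderiv I3 I3 fM x v)).2.2‖ = a⁻¹ * ‖(L x v).2.2‖)
    (kc : ∀ (x : N) (u : TangentSpace I3 x), (u : C3).1 = 0 →
      ‖(L (pM x) (mfderiv I3 I3 pM x u)).1‖ = 0)
    (ks : ∀ (x : N) (u : TangentSpace I3 x), (u : C3).2 = 0 →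
      ‖(L (pM x) (mfderiv I3 I3 pM x u)).2.1‖ = 0)
    (ku : ∀ (x : N) (u : TangentSpace I3 x), (u : C3).2 = 0 →
      ‖(L (pM x) (mfderiv I3 I3 pM x u)).2.2‖ = 0) :
    Statement.{u} := by
  obtain ⟨hN, hPH⟩ := ph_of_frame_aux fM L
    (fun N G hN hG h1 h2 h3 => bound N G hN hG h1 h2 h3) hc hs hu a ha0 ha1 fc fs fu
  refine ⟨M, inferInstance, inferInstance, inferInstance, inferInstance, inferInstance,
    inferInstance, fM, hN, hPH, ?_⟩
  intro n hn M' _ _ _ _ _ _ p hp g hpg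
  have hpl := hp.localDiffeomorph
  have hpm : ContMDiff I3 I3 ω p := hpl.contMDiff
  have hpsurj : Surjective p := surjective_of_cover p hpl
  have hprim : IsLocalPrimitive (fun y y' => hM (p y) (p y')) := isLocalPrimitive_hM.comp hpm
  -- the derivative of the local primitive on `M'`
  have hprimd : ∀ (y : M') (v : TangentSpace I3 y),
      (mfderiv I3 𝓘(ℂ, ℂ) (fun y' => hM (p y) (p y')) y v : ℂ)
        = (mfderiv I3 𝓘(ℂ, ℂ) (hM (p y)) (p y) (mfderiv I3 I3 p y v) : ℂ) := fun y v =>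
    mfderiv_comp_apply y ((hM_holo (p y)).mdifferentiableAt (by simp))
      ((hpm y).mdifferentiableAt (by simp)) v
  -- a zero
  have hzero : ∃ y : M', ∀ v : TangentSpace I3 y,
      (mfderiv I3 𝓘(ℂ, ℂ) (fun y' => hM (p y) (p y')) y v : ℂ) = 0 := by
    obtain ⟨y, hy⟩ := hpsurj (pM (mkN X.origin 0))
    refine ⟨y, fun v => ?_⟩
    rw [hprimd]
    have key : ∀ (m : M) (hm : pM (mkN X.origin 0) = m) (u : C3),
        (mfderiv I3 𝓘(ℂ, ℂ) (hM m) m u : ℂ) = 0 := by
      rintro m rfl u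
      exact zero_hM (x := (mkN X.origin 0)) rfl u
    exact key _ hy.symm _
  have hgm : ContMDiff I3 I3 ω g := g.contMDiff
  have hfn : ContMDiff I3 I3 ω (fM : M → M)^[n] := contMDiff_iterate fM.contMDiff n
  have gs := pull_scale (φ := fns L) hfn hpm hgm hpg
    (scale_iterate (c := a) fM.contMDiff fs n)
  have gu := pull_scale (φ := fnu L) hfn hpm hgm hpg
    (scale_iterate (c := a⁻¹) fM.contMDiff fu n)
  have hpinj : ∀ y : M', Injective (mfderiv I3 I3 p y) := by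
    intro y
    rw [← hpl.mfderivToContinuousLinearEquiv_coe (by simp) y]
    exact (hpl.mfderivToContinuousLinearEquiv (by simp) y).injective
  have hpsur : ∀ y : M', Surjective (mfderiv I3 I3 p y) := by
    intro y
    rw [← hpl.mfderivToContinuousLinearEquiv_coe (by simp) y]
    exact (hpl.mfderivToContinuousLinearEquiv (by simp) y).surjective
  refine ⟨?_, ?_, ?_⟩
  · -- (i)
    refine ex1 _ hprim hzero ?_
    -- a point where `w ≠ 0`
    obtain ⟨x, hx⟩ := dense_w_ne.nonempty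
    obtain ⟨y, hy⟩ := hpsurj (pM (mkN x 0))
    have key : ∀ (m : M) (hm : pM (mkN x 0) = m), ∃ u : C3,
        (mfderiv I3 𝓘(ℂ, ℂ) (hM m) m u : ℂ) ≠ 0 := by
      rintro m rfl
      refine ⟨(mfderiv I3 I3 pM (mkN x 0) ((1, 0) : C3) : C3), ?_⟩
      have h1 := ne_hM (x := (mkN x 0)) hx ((1, 0) : C3)
      intro h2
      exact (one_ne_zero : (1 : ℂ) ≠ 0) (h1.symm.trans h2)
    obtain ⟨u, hu⟩ := key _ hy.symm
    obtain ⟨v, hv⟩ := hpsur y u
    refine ⟨y, v, ?_⟩
    rw [hprimd, hv]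
    exact hu
  · -- (ii)
    rintro ⟨Λ, hΛ, hΛ', A, b, P, hAΛ, hA, hP, hPs, hPg⟩
    have hloc := locally_constant_on_leaves fM L hc hs hu a ha0 fc fs fu n p hpl g hpg Λ hΛ A b hA
      P hP hPg (fun t : X × C2 => pM (t : N))
      (fun x => isLocalDiffeomorph_pM.contMDiff.comp (contMDiff_slice x))
      (fun x ξ v => by
        have h1 := mfderiv_leaf x ξ v
        have h2 := ks (mkN ξ x) ((v, 0) : C3) rfl
        show ‖(L _ _).2.1‖ = 0
        rw [← h2]
        exact congrArg (fun u : C3 => ‖(L (pM (mkN ξ x)) u).2.1‖) h1)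
      (fun x ξ v => by
        have h1 := mfderiv_leaf x ξ v
        have h2 := ku (mkN ξ x) ((v, 0) : C3) rfl
        show ‖(L _ _).2.2‖ = 0
        rw [← h2]
        exact congrArg (fun u : C3 => ‖(L (pM (mkN ξ x)) u).2.2‖) h1)
    -- the induced map of the torus
    have hB : ∃ B : C2 ⧸ Λ → C2 ⧸ Λ, ∀ v : C2,
        B (Submodule.Quotient.mk v) = Submodule.Quotient.mk (A v + b) := by
      refine ⟨fun c => Submodule.Quotient.mk (A (Quotient.out c) + b), fun v => ?_⟩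
      show (Submodule.Quotient.mk (A (Quotient.out (Submodule.Quotient.mk v : C2 ⧸ Λ)) + b) :
        C2 ⧸ Λ) = _
      rw [Submodule.Quotient.eq]
      have h1 : A (Quotient.out (Submodule.Quotient.mk v : C2 ⧸ Λ)) + b - (A v + b)
          = A (Quotient.out (Submodule.Quotient.mk v : C2 ⧸ Λ) - v) := by
        rw [map_sub]; abel
      rw [h1, ← hAΛ, ← Submodule.Quotient.eq]
      exact Submodule.Quotient.mk_out _
    obtain ⟨B, hB⟩ := hB
    obtain ⟨t, ht⟩ := ex2d Λ hΛ hΛ' A b hAΛ hA B hB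
    obtain ⟨y, rfl⟩ := hPs t
    apply ht
    refine ex2c (fun t : X × C2 => pM (t : N)) continuous_pM surjective_pM p
      hpm.continuous hp.finite fM g n hpg ?_ P B ?_ (isClosed_fibre Λ hΛ P hP) hloc y
    · intro m ξ x
      refine ⟨act m 0 ξ, ?_⟩
      rw [fM_iterate]
      exact FM_act m ξ x
    · intro y
      obtain ⟨v, hv⟩ := Submodule.Quotient.mk_surjective _ (P y)
      rw [hPg y v hv.symm, ← hv, hB]
  · -- (iii)
    intro ht
    obtain ⟨φ, φ0, φadd, φh, comm, s, hs'⟩ := ht.exists_flow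
    have htriv : ∀ s x, φ s x = x := by
      refine ex3 g (pull (fnc L) p) (pull (fns L) p) (pull (fnu L) p) (continuous_pull hc hpm)
        (continuous_pull hs hpm) (continuous_pull hu hpm) ?_ (a ^ n) (a⁻¹ ^ n) (by positivity)
        (pow_lt_one₀ ha0.le ha1 (by omega)) (one_lt_pow₀ ((one_lt_inv₀ ha0).2 ha1) (by omega))
        gs gu _ hprim hzero ?_ φ φ0 φadd φh comm
      · intro x v h1 h2 h3
        have h4 := frame_eq_zero L (p x) (mfderiv I3 I3 p x v) h1 h2 h3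
        exact hpinj x (h4.trans (map_zero _).symm)
      · refine (dense_image_w_ne.preimage hpl.isOpenMap).mono ?_
        rintro y ⟨x, hx, hxy⟩ v hv
        have hv' := (hprimd y v).symm.trans hv
        rw [pull_mk]
        have key : ∀ (m : M) (hm : pM x = m) (u : C3),
            (mfderiv I3 𝓘(ℂ, ℂ) (hM m) m u : ℂ) = 0 → fnc L ⟨m, u⟩ = 0 := by
          rintro m rfl u hu
          obtain ⟨w, rfl⟩ := mfderiv_pM_surjective x u
          have h1 := (ne_hM hx w).symm.trans hu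
          exact kc x w h1
        exact key _ hxy _ hv'
    -- so `g = id`, `f^n = id`
    have hg : ∀ y, g y = y := fun y => (hs' y).trans (htriv s y)
    have hfid : ∀ x, (fM : M → M)^[n] x = x := by
      intro x
      obtain ⟨y, rfl⟩ := hpsurj x
      rw [← hpg, hg]
    -- contradiction with the expansion
    have h1 := scale_iterate (φ := fnu L) (c := a⁻¹) fM.contMDiff fu n
      (pM (mkN X.origin 0)) ((L (pM (mkN X.origin 0))).symm (0, 0, 1))
    have h2 := apply_mfderiv_congr (fnu L) (F := (fM : M → M)^[n]) (G := id) (funext hfid)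
      (pM (mkN X.origin 0)) ((L (pM (mkN X.origin 0))).symm (0, 0, 1))
    rw [h1, mfderiv_id] at h2
    have h3 : fnu L ⟨pM (mkN X.origin 0), (L (pM (mkN X.origin 0))).symm (0, 0, 1)⟩ = 1 := by
      show ‖(L (pM (mkN X.origin 0)) ((L (pM (mkN X.origin 0))).symm (0, 0, 1))).2.2‖ = 1
      rw [LinearEquiv.apply_symm_apply]
      simp
    have h4 : a⁻¹ ^ n * fnu L ⟨pM (mkN X.origin 0),
        (L (pM (mkN X.origin 0))).symm (0, 0, 1)⟩
        = fnu L ⟨pM (mkN X.origin 0), (L (pM (mkN X.origin 0))).symm (0, 0, 1)⟩ := h2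
    rw [h3, mul_one] at h4
    have h5 : (1 : ℝ) < a⁻¹ ^ n := one_lt_pow₀ ((one_lt_inv₀ ha0).2 ha1) (by omega)
    linarith

end HolPH
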