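import Mathlib

/-!
# Holomorphic partially hyperbolic diffeomorphisms of compact complex 3-folds: definitions
-/

open scoped Manifold ContDiff Topology
open Set Filter

noncomputable section

namespace HolPH

/-- `ℂ³`, the model of complex threefolds. -/
abbrev C3 : Type := ℂ × ℂ × ℂ

/-- `ℂ²`. -/
abbrev C2 : Type := ℂ × ℂ

/-- The (analytic) complex model with corners `ℂ³`. -/
abbrev I3 : ModelWithCorners ℂ C3 C3 := 𝓘(ℂ, C3)

section Metric

variable {M : Type*} [TopologicalSpace M] [ChartedSpace C3 M] [IsManifold I3 ω M]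

/-- `N : TM → ℝ` is the norm of a continuous Riemannian metric on the complex threefold `M`:
continuous on the tangent bundle and, on each tangent space, the norm of a (real) inner product
(positive, homogeneous and satisfying the parallelogram law). -/
structure IsRiemannianNorm (N : TangentBundle I3 M → ℝ) : Prop where
  continuous : Continuous N
  pos : ∀ (x : M) (v : TangentSpace I3 x), v ≠ 0 → 0 < N ⟨x, v⟩
  smul : ∀ (x : M) (c : ℝ) (v : TangentSpace I3 x), N ⟨x, c • v⟩ = |c| * N ⟨x, v⟩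
  parallelogram : ∀ (x : M) (v w : TangentSpace I3 x),
    N ⟨x, v + w⟩ ^ 2 + N ⟨x, v - w⟩ ^ 2 = 2 * (N ⟨x, v⟩ ^ 2 + N ⟨x, w⟩ ^ 2)

/-- `TM = Es ⊕ Ec ⊕ Eu` is a continuous `Df`-invariant splitting with `Es, Eu ≠ 0`.  (For a
pointwise direct sum decomposition, continuity of the three subbundles is the same as closedness of
their total spaces in `TM`.) -/
structure IsInvariantSplitting (f : M → M)
    (Es Ec Eu : (x : M) → Submodule ℂ (TangentSpace I3 x)) : Prop where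
  closed_s : IsClosed {p : TangentBundle I3 M | p.2 ∈ Es p.1}
  closed_c : IsClosed {p : TangentBundle I3 M | p.2 ∈ Ec p.1}
  closed_u : IsClosed {p : TangentBundle I3 M | p.2 ∈ Eu p.1}
  exists_decomp : ∀ (x : M) (v : TangentSpace I3 x),
    ∃ a ∈ Es x, ∃ b ∈ Ec x, ∃ c ∈ Eu x, v = a + b + c
  unique_decomp : ∀ x : M, ∀ a ∈ Es x, ∀ b ∈ Ec x, ∀ c ∈ Eu x,
    a + b + c = 0 → a = 0 ∧ b = 0 ∧ c = 0
  invariant_s : ∀ (x : M) (v : TangentSpace I3 x), v ∈ Es x ↔ mfderiv I3 I3 f x v ∈ Es (f x)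
  invariant_c : ∀ (x : M) (v : TangentSpace I3 x), v ∈ Ec x ↔ mfderiv I3 I3 f x v ∈ Ec (f x)
  invariant_u : ∀ (x : M) (v : TangentSpace I3 x), v ∈ Eu x ↔ mfderiv I3 I3 f x v ∈ Eu (f x)
  ne_bot_s : ∀ x : M, Es x ≠ ⊥
  ne_bot_u : ∀ x : M, Eu x ≠ ⊥

/-- `f` is partially hyperbolic, the inequalities being measured with the metric of norm `N`:
`‖Df^k|Es‖ < 1 < m(Df^k|Eu)`, `‖Df^k|Es‖ < m(Df^k|Ec)` and `‖Df^k|Ec‖ < m(Df^k|Eu)` at every
point, written with unit vectors (the unit spheres being compact). -/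
def IsPartiallyHyperbolic (N : TangentBundle I3 M → ℝ) (f : M → M) : Prop :=
  ∃ Es Ec Eu : (x : M) → Submodule ℂ (TangentSpace I3 x), IsInvariantSplitting f Es Ec Eu ∧
    ∃ k : ℕ, 1 ≤ k ∧ ∀ x : M,
      (∀ v ∈ Es x, N ⟨x, v⟩ = 1 → N ⟨f^[k] x, mfderiv I3 I3 f^[k] x v⟩ < 1) ∧
      (∀ v ∈ Eu x, N ⟨x, v⟩ = 1 → 1 < N ⟨f^[k] x, mfderiv I3 I3 f^[k] x v⟩) ∧
      (∀ v ∈ Es x, ∀ w ∈ Ec x, N ⟨x, v⟩ = 1 → N ⟨x, w⟩ = 1 →
        N ⟨f^[k] x, mfderiv I3 I3 f^[k] x v⟩ < N ⟨f^[k] x, mfderiv I3 I3 f^[k] x w⟩) ∧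
      (∀ v ∈ Ec x, ∀ w ∈ Eu x, N ⟨x, v⟩ = 1 → N ⟨x, w⟩ = 1 →
        N ⟨f^[k] x, mfderiv I3 I3 f^[k] x v⟩ < N ⟨f^[k] x, mfderiv I3 I3 f^[k] x w⟩)

end Metric

section Types

variable {M M' : Type*} [TopologicalSpace M] [ChartedSpace C3 M]
  [TopologicalSpace M'] [ChartedSpace C3 M']

/-- `p : M' → M` is a finite unbranched holomorphic cover: a covering map with finite fibres which
is locally biholomorphic. -/
structure IsFiniteCover (p : M' → M) : Prop where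
  covering : IsCoveringMap p
  finite : ∀ x, (p ⁻¹' {x}).Finite
  localDiffeomorph : IsLocalDiffeomorph I3 I3 ω p

variable (M) in
/-- `M` is (biholomorphic to) a complex torus `ℂ³/Λ`, by means of the locally biholomorphic
surjection `Ψ : ℂ³ → M` whose fibres are the cosets of the lattice `Λ`. -/
def IsComplexTorus : Prop :=
  ∃ (Λ : Submodule ℤ C3) (_ : DiscreteTopology Λ) (_ : IsZLattice ℝ Λ) (Ψ : C3 → M),
    IsLocalDiffeomorph I3 I3 ω Ψ ∧ Function.Surjective Ψ ∧ ∀ x y, Ψ x = Ψ y ↔ x - y ∈ Λ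

/-- A map `P : M → ℂ²/Λ` is holomorphic if it lifts locally to a holomorphic map to `ℂ²`. -/
def IsHolomorphicToTorus (Λ : Submodule ℤ C2) (P : M → C2 ⧸ Λ) : Prop :=
  ∀ x, ∃ P' : M → C2, ContMDiffAt I3 𝓘(ℂ, C2) ω P' x ∧
    ∀ᶠ y in 𝓝 x, P y = Submodule.Quotient.mk (P' y)

/-- There is a holomorphic surjection of `M` onto a complex `2`-torus `ℂ²/Λ` which semiconjugates
`g` to a linear Anosov automorphism `v ↦ A v + b` (`A Λ = Λ`, no eigenvalue of modulus `1`). -/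
def IsOverLinearAnosov (g : M → M) : Prop :=
  ∃ (Λ : Submodule ℤ C2) (_ : DiscreteTopology Λ) (_ : IsZLattice ℝ Λ)
    (A : C2 ≃ₗ[ℂ] C2) (b : C2) (P : M → C2 ⧸ Λ),
    (∀ v, v ∈ Λ ↔ A v ∈ Λ) ∧
    (∀ μ : ℂ, Module.End.HasEigenvalue (A : C2 →ₗ[ℂ] C2) μ → ‖μ‖ ≠ 1) ∧
    IsHolomorphicToTorus Λ P ∧ Function.Surjective P ∧
    ∀ x v, P x = Submodule.Quotient.mk v → P (g x) = Submodule.Quotient.mk (A v + b)

/-- `φ` is a holomorphic action of `ℂ^*` on `M`. -/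
structure IsHolomorphicCstarAction (φ : ℂˣ → M → M) : Prop where
  one : ∀ x, φ 1 x = x
  mul : ∀ a b x, φ (a * b) x = φ a (φ b x)
  holo : ContMDiff (𝓘(ℂ, ℂ).prod I3) I3 ω (fun a : ℂˣ × M => φ a.1 a.2)

/-- `g` is the time-`t` map, for some `t ∈ ℂ^*`, of some holomorphic action of `ℂ^*` on `M`. -/
def IsTimeMap (g : M → M) : Prop :=
  ∃ φ : ℂˣ → M → M, IsHolomorphicCstarAction φ ∧ ∃ t : ℂˣ, ∀ x, g x = φ t x

end Types

/-- `h x` is a holomorphic function near `x`, and the differentials of `h x` and of `h y` agree at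
`y` for `y` near `x`: so `x ↦ d(h x)(x)` is a closed holomorphic 1-form. -/
structure IsLocalPrimitive {M : Type*} [TopologicalSpace M] [ChartedSpace C3 M]
    (h : M → M → ℂ) : Prop where
  holo : ∀ x, ContMDiffAt I3 𝓘(ℂ, ℂ) ω (h x) x
  compat : ∀ x, ∀ᶠ y in 𝓝 x, ∀ v : TangentSpace I3 y,
    (mfderiv I3 𝓘(ℂ, ℂ) (h x) y v : ℂ) = (mfderiv I3 𝓘(ℂ, ℂ) (h y) y v : ℂ)

universe u

/-- The statement: Q1 of `MP_398e1f_an` is false, also for all iterates. -/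
def Statement : Prop :=
  ∃ (M : Type) (_ : TopologicalSpace M) (_ : ChartedSpace C3 M) (_ : IsManifold I3 ω M)
    (_ : T2Space M) (_ : CompactSpace M) (_ : ConnectedSpace M) (f : M ≃ₘ^ω⟮I3, I3⟯ M),
    (∃ N : TangentBundle I3 M → ℝ, IsRiemannianNorm N) ∧
    (∀ N : TangentBundle I3 M → ℝ, IsRiemannianNorm N → IsPartiallyHyperbolic N f) ∧
    ∀ (n : ℕ), 1 ≤ n →
      ∀ (M' : Type u) [TopologicalSpace M'] [ChartedSpace C3 M'] [IsManifold I3 ω M']
        [T2Space M'] [CompactSpace M'] [ConnectedSpace M'] (p : M' → M),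
        IsFiniteCover p → ∀ g : M' ≃ₘ^ω⟮I3, I3⟯ M', (∀ y, p (g y) = f^[n] (p y)) →
          ¬ IsComplexTorus M' ∧ ¬ IsOverLinearAnosov g ∧ ¬ IsTimeMap g

end HolPH
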