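import Mathlib

/-!
# Holomorphic partially hyperbolic diffeomorphisms of compact complex 3-folds: the statement

Tangent vectors: Mathlib's `TangentSpace I x` is by definition the model vector space, here
`ℂ × ℂ × ℂ` (coordinates in the preferred chart at `x`); so tangent vectors at a point of a
threefold are written as elements of `ℂ × ℂ × ℂ`.
-/

open scoped Manifold ContDiff Topology
open Set Filter

noncomputable section

namespace PH3

/-- The model of complex threefolds: `ℂ³`. -/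
def J : ModelWithCorners ℂ (ℂ × ℂ × ℂ) (ℂ × ℂ × ℂ) := 𝓘(ℂ, ℂ × ℂ × ℂ)

universe u v

/-- A compact connected (Hausdorff) complex threefold. -/
structure Threefold where
  /-- the underlying space -/
  Pt : Type u
  /-- its topology -/
  [top : TopologicalSpace Pt]
  /-- its charts with values in `ℂ³` -/
  [charts : ChartedSpace (ℂ × ℂ × ℂ) Pt]
  /-- the changes of charts are holomorphic -/
  [holo : IsManifold J ω Pt]
  [t2 : T2Space Pt]
  [compact : CompactSpace Pt]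
  [connected : ConnectedSpace Pt]

attribute [instance] Threefold.top Threefold.charts Threefold.holo Threefold.t2 Threefold.compact
  Threefold.connected

variable {M : Threefold.{u}} {M' : Threefold.{v}}

/-- The derivative of `f : M → M'` at `x`, applied to the tangent vector `w`. -/
def D (f : M.Pt → M'.Pt) (x : M.Pt) (w : ℂ × ℂ × ℂ) : ℂ × ℂ × ℂ := mfderiv J J f x w

/-- The base point of an element of the tangent bundle. -/
def base (p : TangentBundle J M.Pt) : M.Pt := p.1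

/-- The tangent vector of an element of the tangent bundle. -/
def vec (p : TangentBundle J M.Pt) : ℂ × ℂ × ℂ := p.2

/-- `f` is locally biholomorphic. -/
def IsLocallyBiholomorphic (f : M.Pt → M'.Pt) : Prop := IsLocalDiffeomorph J J ω f

/-- `f` is a biholomorphism. -/
def IsBiholomorphic (f : M.Pt → M'.Pt) : Prop :=
  Function.Bijective f ∧ IsLocallyBiholomorphic f

/-- `N x`, `x ∈ M`, are the norms on the tangent spaces of a continuous Riemannian metric on `M`: `N` is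
continuous on the tangent bundle and on each tangent space it is the norm of a (real) inner product
(positive, homogeneous and satisfying the parallelogram law). -/
structure IsRiemannianNorm (N : M.Pt → ℂ × ℂ × ℂ → ℝ) : Prop where
  continuous : Continuous fun p : TangentBundle J M.Pt => N (base p) (vec p)
  pos : ∀ x w, w ≠ 0 → 0 < N x w
  smul : ∀ (x : M.Pt) (c : ℝ) (w : ℂ × ℂ × ℂ), N x (c • w) = |c| * N x w
  parallelogram : ∀ (x : M.Pt) (w w' : ℂ × ℂ × ℂ),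
    N x (w + w') ^ 2 + N x (w - w') ^ 2 = 2 * (N x w ^ 2 + N x w' ^ 2)

/-- The total space `{(x, w) : w ∈ E x}` of a family of subspaces is closed in the tangent bundle. -/
def IsClosedFamily (E : M.Pt → Submodule ℂ (ℂ × ℂ × ℂ)) : Prop :=
  IsClosed {p : TangentBundle J M.Pt | vec p ∈ E (base p)}

/-- `E` is mapped to itself by the derivative of `f`. -/
def IsInvariantFamily (f : M.Pt → M.Pt) (E : M.Pt → Submodule ℂ (ℂ × ℂ × ℂ)) : Prop :=
  ∀ (x : M.Pt) (w : ℂ × ℂ × ℂ), w ∈ E x ↔ D f x w ∈ E (f x)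

/-- `ℂ³ = A ⊕ B ⊕ C`. -/
def IsDecomposition (A B C : Submodule ℂ (ℂ × ℂ × ℂ)) : Prop :=
  (∀ w : ℂ × ℂ × ℂ, ∃ a ∈ A, ∃ b ∈ B, ∃ c ∈ C, a + b + c = w) ∧
  ∀ a ∈ A, ∀ b ∈ B, ∀ c ∈ C, a + b + c = 0 → a = 0 ∧ b = 0 ∧ c = 0

/-- `TM = Es ⊕ Ec ⊕ Eu` is a continuous `Df`-invariant splitting with `Es, Eu ≠ 0`.  (For a
pointwise direct sum decomposition, continuity of the three subbundles is the same as closedness of
their total spaces in `TM`.) -/
structure IsInvariantSplitting (f : M.Pt → M.Pt)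
    (Es Ec Eu : M.Pt → Submodule ℂ (ℂ × ℂ × ℂ)) : Prop where
  decomp : ∀ x, IsDecomposition (Es x) (Ec x) (Eu x)
  closed_s : IsClosedFamily Es
  closed_c : IsClosedFamily Ec
  closed_u : IsClosedFamily Eu
  invariant_s : IsInvariantFamily f Es
  invariant_c : IsInvariantFamily f Ec
  invariant_u : IsInvariantFamily f Eu
  ne_bot_s : ∀ x, Es x ≠ ⊥
  ne_bot_u : ∀ x, Eu x ≠ ⊥

/-- `‖D g (x) w‖ < c` for every unit vector `w ∈ A` (that is, `‖D g (x) | A‖ < c`). -/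
def NormLT (N : M.Pt → ℂ × ℂ × ℂ → ℝ) (g : M.Pt → M.Pt) (x : M.Pt)
    (A : Submodule ℂ (ℂ × ℂ × ℂ)) (c : ℝ) : Prop :=
  ∀ w ∈ A, N x w = 1 → N (g x) (D g x w) < c

/-- `c < ‖D g (x) w‖` for every unit vector `w ∈ A` (that is, `c < m(D g (x) | A)`). -/
def ConormGT (N : M.Pt → ℂ × ℂ × ℂ → ℝ) (g : M.Pt → M.Pt) (x : M.Pt)
    (A : Submodule ℂ (ℂ × ℂ × ℂ)) (c : ℝ) : Prop :=
  ∀ w ∈ A, N x w = 1 → c < N (g x) (D g x w)

/-- `‖D g (x) w‖ < ‖D g (x) w'‖` for all unit vectors `w ∈ A`, `w' ∈ B` (that is,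
`‖D g (x) | A‖ < m(D g (x) | B)`). -/
def Dominated (N : M.Pt → ℂ × ℂ × ℂ → ℝ) (g : M.Pt → M.Pt) (x : M.Pt)
    (A B : Submodule ℂ (ℂ × ℂ × ℂ)) : Prop :=
  ∀ w ∈ A, ∀ w' ∈ B, N x w = 1 → N x w' = 1 → N (g x) (D g x w) < N (g x) (D g x w')

/-- `f` is partially hyperbolic, the inequalities being measured with the norms `N`:
`‖Df^k|Es‖ < 1 < m(Df^k|Eu)`, `‖Df^k|Es‖ < m(Df^k|Ec)` and `‖Df^k|Ec‖ < m(Df^k|Eu)` at every point. -/
def IsPartiallyHyperbolic (N : M.Pt → ℂ × ℂ × ℂ → ℝ) (f : M.Pt → M.Pt) : Prop :=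
  ∃ Es Ec Eu : M.Pt → Submodule ℂ (ℂ × ℂ × ℂ), IsInvariantSplitting f Es Ec Eu ∧
    ∃ k : ℕ, 1 ≤ k ∧ ∀ x : M.Pt,
      NormLT N f^[k] x (Es x) 1 ∧ ConormGT N f^[k] x (Eu x) 1 ∧
      Dominated N f^[k] x (Es x) (Ec x) ∧ Dominated N f^[k] x (Ec x) (Eu x)

/-- `f` is topologically transitive. -/
def IsTransitive (f : M.Pt → M.Pt) : Prop :=
  ∀ U V : Set M.Pt, IsOpen U → IsOpen V → U.Nonempty → V.Nonempty →
    ∃ n : ℕ, 1 ≤ n ∧ ((f^[n] '' U) ∩ V).Nonempty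

/-- `p : M' → M` is a finite unbranched holomorphic cover: a covering map with finite fibres which
is locally biholomorphic. -/
structure IsFiniteCover (p : M'.Pt → M.Pt) : Prop where
  covering : IsCoveringMap p
  finite : ∀ x, (p ⁻¹' {x}).Finite
  locallyBiholomorphic : IsLocallyBiholomorphic p

variable (M) in
/-- `M` is (biholomorphic to) a complex torus `ℂ³/Λ`, `Λ` a discrete subgroup of full rank, by means
of the locally biholomorphic surjection `Ψ : ℂ³ → M` whose fibres are the cosets of `Λ`. -/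
def IsComplexTorus : Prop :=
  ∃ Λ : Submodule ℤ (ℂ × ℂ × ℂ), DiscreteTopology Λ ∧ Submodule.span ℝ (Λ : Set (ℂ × ℂ × ℂ)) = ⊤ ∧
    ∃ Ψ : ℂ × ℂ × ℂ → M.Pt, IsLocalDiffeomorph J J ω Ψ ∧ Function.Surjective Ψ ∧
      ∀ x y, Ψ x = Ψ y ↔ x - y ∈ Λ

/-- A map `P : M → ℂ²/Λ` is holomorphic if it lifts locally to a holomorphic map to `ℂ²`. -/
def IsHolomorphicToTorus (Λ : Submodule ℤ (ℂ × ℂ)) (P : M.Pt → (ℂ × ℂ) ⧸ Λ) : Prop :=
  ∀ x, ∃ P' : M.Pt → ℂ × ℂ, ContMDiffAt J 𝓘(ℂ, ℂ × ℂ) ω P' x ∧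
    ∀ᶠ y in 𝓝 x, P y = Submodule.Quotient.mk (P' y)

/-- `F` is a linear Anosov automorphism `v ↦ A v + b` of the complex torus `ℂ²/Λ`: `A` is a complex
linear automorphism of `ℂ²`, `A Λ = Λ`, without eigenvalues of modulus `1`. -/
def IsLinearAnosov (Λ : Submodule ℤ (ℂ × ℂ)) (F : (ℂ × ℂ) ⧸ Λ → (ℂ × ℂ) ⧸ Λ) : Prop :=
  ∃ (A : (ℂ × ℂ) ≃ₗ[ℂ] ℂ × ℂ) (b : ℂ × ℂ), (∀ v, v ∈ Λ ↔ A v ∈ Λ) ∧
    (∀ (c : ℂ) (v : ℂ × ℂ), A v = c • v → v ≠ 0 → ‖c‖ ≠ 1) ∧
    ∀ v, F (Submodule.Quotient.mk v) = Submodule.Quotient.mk (A v + b)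

/-- There is a holomorphic surjection of `M` onto a complex `2`-torus `ℂ²/Λ` which semiconjugates
`g` to a linear Anosov automorphism.  (In particular every holomorphic skew product over a linear
Anosov automorphism has this property.) -/
def IsOverLinearAnosov (g : M.Pt → M.Pt) : Prop :=
  ∃ Λ : Submodule ℤ (ℂ × ℂ), DiscreteTopology Λ ∧ Submodule.span ℝ (Λ : Set (ℂ × ℂ)) = ⊤ ∧
    ∃ (F : (ℂ × ℂ) ⧸ Λ → (ℂ × ℂ) ⧸ Λ) (P : M.Pt → (ℂ × ℂ) ⧸ Λ),
      IsLinearAnosov Λ F ∧ IsHolomorphicToTorus Λ P ∧ Function.Surjective P ∧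
      ∀ x, P (g x) = F (P x)

/-- `φ` is a holomorphic action of `ℂ^*` on `M`. -/
structure IsHolomorphicCstarAction (φ : ℂˣ → M.Pt → M.Pt) : Prop where
  one : ∀ x, φ 1 x = x
  mul : ∀ a b x, φ (a * b) x = φ a (φ b x)
  holo : ContMDiff (𝓘(ℂ, ℂ).prod J) J ω (fun a : ℂˣ × M.Pt => φ a.1 a.2)

/-- `g` is the time-`t` map, for some `t ∈ ℂ^*`, of some holomorphic action of `ℂ^*` on `M`. -/
def IsTimeMap (g : M.Pt → M.Pt) : Prop :=
  ∃ φ : ℂˣ → M.Pt → M.Pt, IsHolomorphicCstarAction φ ∧ ∃ t : ℂˣ, ∀ x, g x = φ t x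

/-- No lift of `f` to a finite cover is of one of the three types. -/
def NoLiftOfTypes (f : M.Pt → M.Pt) : Prop :=
  ∀ (M' : Threefold.{v}) (p : M'.Pt → M.Pt), IsFiniteCover p →
    ∀ g : M'.Pt → M'.Pt, IsBiholomorphic g → (∀ y, p (g y) = f (p y)) →
      ¬ IsComplexTorus M' ∧ ¬ IsOverLinearAnosov g ∧ ¬ IsTimeMap g

/-- The statement: the answer to Q1 of `MP_398e1f_an` is no, also for all iterates and for a
topologically transitive `f`. -/
def Statement : Prop :=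
  ∃ (M : Threefold.{0}) (f : M.Pt → M.Pt), IsBiholomorphic f ∧
    (∃ N : M.Pt → ℂ × ℂ × ℂ → ℝ, IsRiemannianNorm N) ∧
    (∀ N : M.Pt → ℂ × ℂ × ℂ → ℝ, IsRiemannianNorm N → IsPartiallyHyperbolic N f) ∧
    IsTransitive f ∧ ∀ n : ℕ, 1 ≤ n → NoLiftOfTypes.{0, v} f^[n]

end PH3
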