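import Pool.Agent.Helper84.PH.Defs
import Pool.Agent.Helper84.PH.Stmt

/-!
# From the working definitions (`HolPH`) to the statement-level definitions (`PH3`)
-/

open scoped Manifold ContDiff Topology
open Set Filter

noncomputable section

namespace PH3

universe u v

instance manifoldI3 (M : Threefold.{u}) : IsManifold HolPH.I3 ω M.Pt := M.holo

/-- a complex threefold as a `Threefold` -/
def mk3 (M : Type u) [TopologicalSpace M] [h1 : ChartedSpace HolPH.C3 M]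
    [h2 : IsManifold HolPH.I3 ω M] [T2Space M] [CompactSpace M] [ConnectedSpace M] :
    Threefold.{u} where
  Pt := M
  charts := h1
  holo := h2

variable {M : Threefold.{u}} {M' : Threefold.{v}}

/-- the norm on the tangent bundle -/
def normB (N : M.Pt → ℂ × ℂ × ℂ → ℝ) (p : TangentBundle HolPH.I3 M.Pt) : ℝ := N p.1 p.2

/-- the family of norms -/
def normF (N : TangentBundle HolPH.I3 M.Pt → ℝ) (x : M.Pt) (w : ℂ × ℂ × ℂ) : ℝ := N ⟨x, w⟩

theorem real_smul_eq (c : ℝ) (w : ℂ × ℂ × ℂ) : (c • w : ℂ × ℂ × ℂ) = ((c : ℂ) • w) := by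
  refine Prod.ext ?_ (Prod.ext ?_ ?_) <;> exact Complex.real_smul

theorem isRiemannianNorm_normB {N : M.Pt → ℂ × ℂ × ℂ → ℝ} (h : IsRiemannianNorm N) :
    HolPH.IsRiemannianNorm (M := M.Pt) (normB N) where
  continuous := h.continuous
  pos := h.pos
  smul x c v := by
    have h1 := h.smul x c v
    have h2 : N x ((c • (show ℂ × ℂ × ℂ from v) : ℂ × ℂ × ℂ))
        = N x (((c : ℂ) • (show ℂ × ℂ × ℂ from v) : ℂ × ℂ × ℂ)) :=
      congrArg (N x) (real_smul_eq c _)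
    exact h2.symm.trans h1
  parallelogram := h.parallelogram

theorem isRiemannianNorm_normF {N : TangentBundle HolPH.I3 M.Pt → ℝ}
    (h : HolPH.IsRiemannianNorm (M := M.Pt) N) : IsRiemannianNorm (normF N) where
  continuous := h.continuous
  pos := h.pos
  smul x c v := by
    have h1 := h.smul x c v
    rw [real_smul_eq]
    exact h1
  parallelogram := h.parallelogram

theorem isPartiallyHyperbolic_of {N : M.Pt → ℂ × ℂ × ℂ → ℝ} {f : M.Pt → M.Pt}
    (h : HolPH.IsPartiallyHyperbolic (M := M.Pt) (normB N) f) : IsPartiallyHyperbolic N f := by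
  obtain ⟨Es, Ec, Eu, hspl, k, hk, hineq⟩ := h
  refine ⟨Es, Ec, Eu, ?_, k, hk, fun x => ?_⟩
  · refine ⟨fun x => ⟨?_, hspl.unique_decomp x⟩, hspl.closed_s, hspl.closed_c, hspl.closed_u,
      hspl.invariant_s, hspl.invariant_c, hspl.invariant_u, hspl.ne_bot_s, hspl.ne_bot_u⟩
    intro w
    obtain ⟨a, ha, b, hb, c, hc, h⟩ := hspl.exists_decomp x w
    exact ⟨a, ha, b, hb, c, hc, h.symm⟩
  · obtain ⟨h1, h2, h3, h4⟩ := hineq x
    exact ⟨h1, h2, h3, h4⟩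

theorem isComplexTorus_of (h : IsComplexTorus M) : HolPH.IsComplexTorus M.Pt := by
  obtain ⟨Λ, hd, hz, Ψ, h1, h2, h3⟩ := h
  exact ⟨Λ, hd, ⟨hz⟩, Ψ, h1, h2, h3⟩

theorem isFiniteCover_of {p : M'.Pt → M.Pt} (h : IsFiniteCover p) : HolPH.IsFiniteCover p :=
  ⟨h.covering, h.finite, h.locallyBiholomorphic⟩

theorem isOverLinearAnosov_of {g : M.Pt → M.Pt} (h : IsOverLinearAnosov g) :
    HolPH.IsOverLinearAnosov g := by
  obtain ⟨Λ, hd, hz, F, P, ⟨A, b, hA1, hA2, hF⟩, hP, hPs, hgP⟩ := h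
  refine ⟨Λ, hd, ⟨hz⟩, A, b, P, hA1, ?_, hP, hPs, ?_⟩
  · intro c hc
    obtain ⟨v, hv⟩ := hc.exists_hasEigenvector
    exact hA2 c v hv.apply_eq_smul hv.2
  · intro x v hv
    rw [hgP, hv]
    exact hF v

theorem isTimeMap_of {g : M.Pt → M.Pt} (h : IsTimeMap g) : HolPH.IsTimeMap g := by
  obtain ⟨φ, hφ, t, ht⟩ := h
  exact ⟨φ, ⟨hφ.one, hφ.mul, hφ.holo⟩, t, ht⟩

theorem isBiholomorphic_of {M M' : Threefold.{u}} (f : M.Pt ≃ₘ^ω⟮HolPH.I3, HolPH.I3⟯ M'.Pt) :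
    IsBiholomorphic (M := M) (M' := M') f :=
  ⟨f.bijective, f.isLocalDiffeomorph⟩

theorem exists_diffeomorph_of {f : M.Pt → M'.Pt} (h : IsBiholomorphic f) :
    ∃ F : M.Pt ≃ₘ^ω⟮HolPH.I3, HolPH.I3⟯ M'.Pt, (F : M.Pt → M'.Pt) = f := by
  have h2 : IsLocalDiffeomorph HolPH.I3 HolPH.I3 ω f := h.2
  exact ⟨h2.diffeomorphOfBijective h.1, rfl⟩

/-- The statement-level theorem from the working one. -/
theorem statement_of (M : Type) [TopologicalSpace M] [ChartedSpace HolPH.C3 M]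
    [IsManifold HolPH.I3 ω M] [T2Space M] [CompactSpace M] [ConnectedSpace M]
    (f : M ≃ₘ^ω⟮HolPH.I3, HolPH.I3⟯ M)
    (h1 : ∃ N : TangentBundle HolPH.I3 M → ℝ, HolPH.IsRiemannianNorm N)
    (h2 : ∀ N : TangentBundle HolPH.I3 M → ℝ, HolPH.IsRiemannianNorm N →
      HolPH.IsPartiallyHyperbolic N f)
    (h3 : ∀ U V : Set M, IsOpen U → IsOpen V → U.Nonempty → V.Nonempty →
      ∃ n : ℕ, 1 ≤ n ∧ (((f : M → M)^[n] '' U) ∩ V).Nonempty)
    (h4 : ∀ (n : ℕ), 1 ≤ n →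
      ∀ (M' : Type v) [TopologicalSpace M'] [ChartedSpace HolPH.C3 M']
        [IsManifold HolPH.I3 ω M'] [T2Space M'] [CompactSpace M'] [ConnectedSpace M']
        (p : M' → M), HolPH.IsFiniteCover p →
        ∀ g : M' ≃ₘ^ω⟮HolPH.I3, HolPH.I3⟯ M', (∀ y, p (g y) = f^[n] (p y)) →
          ¬ HolPH.IsComplexTorus M' ∧ ¬ HolPH.IsOverLinearAnosov g ∧ ¬ HolPH.IsTimeMap g) :
    Statement.{v} := by
  refine ⟨mk3 M, f, isBiholomorphic_of (M := mk3 M) (M' := mk3 M) f, ?_, ?_, h3, ?_⟩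
  · obtain ⟨N, hN⟩ := h1
    exact ⟨normF (M := mk3 M) N, isRiemannianNorm_normF (M := mk3 M) hN⟩
  · intro N hN
    exact isPartiallyHyperbolic_of (M := mk3 M) (h2 _ (isRiemannianNorm_normB (M := mk3 M) hN))
  · intro n hn M' p hp g hg hpg
    obtain ⟨G, hG⟩ := exists_diffeomorph_of hg
    subst hG
    have h5 := h4 n hn M'.Pt p (isFiniteCover_of hp) G hpg
    exact ⟨fun h => h5.1 (isComplexTorus_of h), fun h => h5.2.1 (isOverLinearAnosov_of h),
      fun h => h5.2.2 (isTimeMap_of h)⟩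

end PH3
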