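import Pool.Agent.Helper84.PH.CoverNorms
import Pool.Agent.Helper42.PH.BND
import Pool.Agent.Helper94.PH.EX2a
import Pool.Agent.Helper17.PH.EX2b
import Pool.Agent.Helper71.PH.PHY

/-!
# Consequences of a moving frame, common to both examples
-/

open scoped Manifold ContDiff Topology
open Set Filter Function

set_option linter.unusedSectionVars false

noncomputable section

namespace HolPH

section

variable {M M' : Type*} [TopologicalSpace M] [ChartedSpace C3 M] [IsManifold I3 ω M]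
  [TopologicalSpace M'] [ChartedSpace C3 M'] [IsManifold I3 ω M']

/-- the three seminorms of a frame -/
def fnc (L : ∀ x : M, TangentSpace I3 x ≃ₗ[ℂ] C3) (p : TangentBundle I3 M) : ℝ := ‖(L p.1 p.2).1‖
/-- second seminorm -/
def fns (L : ∀ x : M, TangentSpace I3 x ≃ₗ[ℂ] C3) (p : TangentBundle I3 M) : ℝ := ‖(L p.1 p.2).2.1‖
/-- third seminorm -/
def fnu (L : ∀ x : M, TangentSpace I3 x ≃ₗ[ℂ] C3) (p : TangentBundle I3 M) : ℝ := ‖(L p.1 p.2).2.2‖

omit [IsManifold I3 ω M] in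
theorem frame_eq_zero (L : ∀ x : M, TangentSpace I3 x ≃ₗ[ℂ] C3) (x : M) (v : TangentSpace I3 x)
    (h1 : fnc L ⟨x, v⟩ = 0) (h2 : fns L ⟨x, v⟩ = 0) (h3 : fnu L ⟨x, v⟩ = 0) : v = 0 := by
  have : L x v = 0 := by
    refine Prod.ext ?_ (Prod.ext ?_ ?_)
    · exact norm_eq_zero.1 h1
    · exact norm_eq_zero.1 h2
    · exact norm_eq_zero.1 h3
  exact (L x).map_eq_zero_iff.1 this

omit [IsManifold I3 ω M'] [IsManifold I3 ω M] in
theorem pull_smul {φ : TangentBundle I3 M → ℝ}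
    (h : ∀ (x : M) (c : ℝ) (v : TangentSpace I3 x), φ ⟨x, c • v⟩ = |c| * φ ⟨x, v⟩) (p : M' → M)
    (y : M') (c : ℝ) (v : TangentSpace I3 y) :
    pull φ p ⟨y, c • v⟩ = |c| * pull φ p ⟨y, v⟩ := by
  rw [pull_mk, pull_mk]
  have h1 : mfderiv I3 I3 p y (c • v) = c • mfderiv I3 I3 p y v := by
    have h2 : c • v = (c : ℂ) • v := (Complex.coe_smul c v).symm
    rw [h2, map_smul]
    exact Complex.coe_smul c _
  rw [h1, h]

theorem fnc_smul (L : ∀ x : M, TangentSpace I3 x ≃ₗ[ℂ] C3) (x : M) (c : ℝ) (v : TangentSpace I3 x) :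
    fnc L ⟨x, c • v⟩ = |c| * fnc L ⟨x, v⟩ := by
  have h := frame_real_smul L x c v
  show ‖(L x (c • v)).1‖ = |c| * ‖(L x v).1‖
  rw [h]
  show ‖c • (L x v).1‖ = _
  rw [norm_smul, Real.norm_eq_abs]

theorem fns_smul (L : ∀ x : M, TangentSpace I3 x ≃ₗ[ℂ] C3) (x : M) (c : ℝ) (v : TangentSpace I3 x) :
    fns L ⟨x, c • v⟩ = |c| * fns L ⟨x, v⟩ := by
  have h := frame_real_smul L x c v
  show ‖(L x (c • v)).2.1‖ = |c| * ‖(L x v).2.1‖
  rw [h]
  show ‖c • (L x v).2.1‖ = _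
  rw [norm_smul, Real.norm_eq_abs]

theorem fnu_smul (L : ∀ x : M, TangentSpace I3 x ≃ₗ[ℂ] C3) (x : M) (c : ℝ) (v : TangentSpace I3 x) :
    fnu L ⟨x, c • v⟩ = |c| * fnu L ⟨x, v⟩ := by
  have h := frame_real_smul L x c v
  show ‖(L x (c • v)).2.2‖ = |c| * ‖(L x v).2.2‖
  rw [h]
  show ‖c • (L x v).2.2‖ = _
  rw [norm_smul, Real.norm_eq_abs]

theorem contMDiff_iterate {f : M → M} (hf : ContMDiff I3 I3 ω f) (n : ℕ) :
    ContMDiff I3 I3 ω f^[n] := by
  induction n with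
  | zero => exact contMDiff_id
  | succ k ih => rw [iterate_succ]; exact ih.comp hf

/-- If `P : M' → ℂ²/Λ` semiconjugates a lift of `f^n` to a linear Anosov automorphism, then `P` is
locally constant along lifts of the central leaves `q (X × {x})`. -/
theorem locally_constant_on_leaves [CompactSpace M'] (f : M ≃ₘ^ω⟮I3, I3⟯ M)
    (L : ∀ x : M, TangentSpace I3 x ≃ₗ[ℂ] C3)
    (hc : Continuous fun p : TangentBundle I3 M => ‖(L p.1 p.2).1‖)
    (hs : Continuous fun p : TangentBundle I3 M => ‖(L p.1 p.2).2.1‖)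
    (hu : Continuous fun p : TangentBundle I3 M => ‖(L p.1 p.2).2.2‖)
    (a : ℝ) (ha0 : 0 < a)
    (fc : ∀ (x : M) (v : TangentSpace I3 x), ‖(L (f x) (mfderiv I3 I3 f x v)).1‖ = ‖(L x v).1‖)
    (fs : ∀ (x : M) (v : TangentSpace I3 x),
      ‖(L (f x) (mfderiv I3 I3 f x v)).2.1‖ = a * ‖(L x v).2.1‖)
    (fu : ∀ (x : M) (v : TangentSpace I3 x),
      ‖(L (f x) (mfderiv I3 I3 f x v)).2.2‖ = a⁻¹ * ‖(L x v).2.2‖)
    (n : ℕ) (p : M' → M) (hp : IsLocalDiffeomorph I3 I3 ω p) (g : M' ≃ₘ^ω⟮I3, I3⟯ M')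
    (hpg : ∀ y, p (g y) = (f : M → M)^[n] (p y))
    (Λ : Submodule ℤ C2) (hΛ : DiscreteTopology Λ) (A : C2 ≃ₗ[ℂ] C2) (w : C2)
    (hA : ∀ μ : ℂ, Module.End.HasEigenvalue (A : C2 →ₗ[ℂ] C2) μ → ‖μ‖ ≠ 1)
    (P : M' → C2 ⧸ Λ) (hP : IsHolomorphicToTorus Λ P)
    (hgP : ∀ x v, P x = Submodule.Quotient.mk v → P (g x) = Submodule.Quotient.mk (A v + w))
    {X : Type*} [TopologicalSpace X] [ChartedSpace ℂ X] [IsManifold 𝓘(ℂ, ℂ) ω X]
    (q : X × C2 → M) (hq : ∀ x, ContMDiff 𝓘(ℂ, ℂ) I3 ω (fun ξ : X => q (ξ, x)))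
    (hhs : ∀ (x : C2) (ξ : X) (v : TangentSpace 𝓘(ℂ, ℂ) ξ),
      fns L ⟨q (ξ, x), mfderiv 𝓘(ℂ, ℂ) I3 (fun ξ : X => q (ξ, x)) ξ v⟩ = 0)
    (hhu : ∀ (x : C2) (ξ : X) (v : TangentSpace 𝓘(ℂ, ℂ) ξ),
      fnu L ⟨q (ξ, x), mfderiv 𝓘(ℂ, ℂ) I3 (fun ξ : X => q (ξ, x)) ξ v⟩ = 0)
    (y : M') (ξ : X) (x : C2) (hξ : q (ξ, x) = p y) :
    ∀ᶠ ξ' in 𝓝 ξ, ∃ y', p y' = q (ξ', x) ∧ P y' = P y := by
  have hpm : ContMDiff I3 I3 ω p := hp.contMDiff
  have hgm : ContMDiff I3 I3 ω g := g.contMDiff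
  have hfn : ContMDiff I3 I3 ω (f : M → M)^[n] := contMDiff_iterate f.contMDiff n
  have gc := pull_scale (φ := fnc L) hfn hpm hgm hpg
    (scale_iterate (c := 1) f.contMDiff (fun x v => by rw [one_mul]; exact fc x v) n)
  have gs := pull_scale (φ := fns L) hfn hpm hgm hpg
    (scale_iterate (c := a) f.contMDiff fs n)
  have gu := pull_scale (φ := fnu L) hfn hpm hgm hpg
    (scale_iterate (c := a⁻¹) f.contMDiff fu n)
  refine ex2b p hp q x (hq x) Λ P hP ?_ y ξ hξ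
  intro y P' hP' hPP' ξ v v' hξ hv'
  refine ex2a g (pull (fnc L) p) (pull (fns L) p) (pull (fnu L) p) (continuous_pull hc hpm)
    (continuous_pull hs hpm) (continuous_pull hu hpm) (fun v => norm_nonneg _)
    (fun v => norm_nonneg _) (fun v => norm_nonneg _) ?_ (pull_smul (fnc_smul L) p)
    (pull_smul (fns_smul L) p) (pull_smul (fnu_smul L) p) (a ^ n) (a⁻¹ ^ n) (by positivity)
    (by positivity) (fun x v => by rw [gc, one_pow, one_mul]) gs gu Λ hΛ A w hA P hP hgP y P' hP'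
    hPP' v' ?_ ?_
  · intro x v h1 h2 h3
    have h4 := frame_eq_zero L (p x) (mfderiv I3 I3 p x v) h1 h2 h3
    have h5 : Injective (mfderiv I3 I3 p x) := by
      rw [← hp.mfderivToContinuousLinearEquiv_coe (by simp) x]
      exact (hp.mfderivToContinuousLinearEquiv (by simp) x).injective
    exact h5 (h4.trans (map_zero _).symm)
  · rw [pull_mk]
    have key : ∀ (m : M) (hm : q (ξ, x) = m) (u : C3),
        u = (mfderiv 𝓘(ℂ, ℂ) I3 (fun ξ : X => q (ξ, x)) ξ v : C3) → fns L ⟨m, u⟩ = 0 := by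
      rintro m rfl u rfl
      exact hhs x ξ v
    exact key _ hξ _ hv'
  · rw [pull_mk]
    have key : ∀ (m : M) (hm : q (ξ, x) = m) (u : C3),
        u = (mfderiv 𝓘(ℂ, ℂ) I3 (fun ξ : X => q (ξ, x)) ξ v : C3) → fnu L ⟨m, u⟩ = 0 := by
      rintro m rfl u rfl
      exact hhu x ξ v
    exact key _ hξ _ hv'

/-- fibres of a holomorphic map to a torus are closed -/
theorem isClosed_fibre (Λ : Submodule ℤ C2) (hΛ : DiscreteTopology Λ) (P : M' → C2 ⧸ Λ)
    (hP : IsHolomorphicToTorus Λ P) (c : C2 ⧸ Λ) : IsClosed {y | P y = c} := by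
  have hcl : IsClosed (Λ : Set C2) := by
    have : DiscreteTopology Λ.toAddSubgroup := hΛ
    exact AddSubgroup.isClosed_of_discrete (H := Λ.toAddSubgroup)
  obtain ⟨v, rfl⟩ := Submodule.Quotient.mk_surjective _ c
  rw [← isOpen_compl_iff, isOpen_iff_mem_nhds]
  intro y hy
  obtain ⟨P', hP', hPP'⟩ := hP y
  have h1 : P' y - v ∉ (Λ : Set C2) := by
    intro h
    apply hy
    show P y = _
    rw [hPP'.self_of_nhds, Submodule.Quotient.eq]
    exact h
  have h2 : ∀ᶠ y' in 𝓝 y, P' y' - v ∈ (Λ : Set C2)ᶜ :=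
    (hP'.continuousAt.sub continuousAt_const).eventually (hcl.isOpen_compl.mem_nhds h1)
  filter_upwards [h2, hPP'] with y' h3 h4 h5
  apply h3
  have h6 : P y' = Submodule.Quotient.mk v := h5
  rw [h4, Submodule.Quotient.eq] at h6
  exact h6

omit [IsManifold I3 ω M] [IsManifold I3 ω M'] in
/-- a cover of a connected manifold by a compact nonempty one is onto -/
theorem surjective_of_cover [T2Space M] [ConnectedSpace M] [CompactSpace M'] [Nonempty M']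
    (p : M' → M) (hp : IsLocalDiffeomorph I3 I3 ω p) : Surjective p := by
  rw [← range_eq_univ]
  apply IsClopen.eq_univ
  · exact ⟨(isCompact_range hp.contMDiff.continuous).isClosed, hp.isOpen_range⟩
  · exact range_nonempty p

end

end HolPH
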