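import Pool.Agent.Helper84.PH.Defs

/-!
# Pulling back norms to covers
-/

open scoped Manifold ContDiff Topology
open Set Filter Function

noncomputable section

namespace HolPH

variable {M M' : Type*} [TopologicalSpace M] [ChartedSpace C3 M] [IsManifold I3 ω M]
  [TopologicalSpace M'] [ChartedSpace C3 M'] [IsManifold I3 ω M']

/-- `φ` pulled back by `p` -/
def pull (φ : TangentBundle I3 M → ℝ) (p : M' → M) (v : TangentBundle I3 M') : ℝ :=
  φ (tangentMap I3 I3 p v)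

omit [IsManifold I3 ω M] [IsManifold I3 ω M'] in
theorem pull_mk (φ : TangentBundle I3 M → ℝ) (p : M' → M) (y : M') (v : TangentSpace I3 y) :
    pull φ p ⟨y, v⟩ = φ ⟨p y, mfderiv I3 I3 p y v⟩ := rfl

theorem continuous_pull {φ : TangentBundle I3 M → ℝ} (hφ : Continuous φ) {p : M' → M}
    (hp : ContMDiff I3 I3 ω p) : Continuous (pull φ p) :=
  hφ.comp (hp.continuous_tangentMap (by simp))

omit [IsManifold I3 ω M] [IsManifold I3 ω M'] in
/-- values on images of tangent vectors only depend on the composed map -/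
theorem apply_mfderiv_congr (φ : TangentBundle I3 M → ℝ) {F G : M' → M} (hFG : F = G) (y : M')
    (v : TangentSpace I3 y) :
    φ ⟨F y, mfderiv I3 I3 F y v⟩ = φ ⟨G y, mfderiv I3 I3 G y v⟩ := by
  subst hFG; rfl

omit [IsManifold I3 ω M] in
theorem scale_iterate {φ : TangentBundle I3 M → ℝ} {c : ℝ} {f : M → M}
    (hf : ContMDiff I3 I3 ω f)
    (h : ∀ (x : M) (v : TangentSpace I3 x), φ ⟨f x, mfderiv I3 I3 f x v⟩ = c * φ ⟨x, v⟩)
    (n : ℕ) (x : M) (v : TangentSpace I3 x) :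
    φ ⟨f^[n] x, mfderiv I3 I3 f^[n] x v⟩ = c ^ n * φ ⟨x, v⟩ := by
  have hit : ∀ n : ℕ, ContMDiff I3 I3 ω f^[n] := by
    intro n
    induction n with
    | zero => exact contMDiff_id
    | succ k ih => rw [iterate_succ]; exact ih.comp hf
  induction n generalizing x with
  | zero =>
    have h1 : φ ⟨f^[0] x, mfderiv I3 I3 f^[0] x v⟩ = φ ⟨id x, mfderiv I3 I3 id x v⟩ :=
      apply_mfderiv_congr φ (F := f^[0]) (G := id) rfl x v
    rw [h1, mfderiv_id, pow_zero, one_mul]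
    rfl
  | succ k ih =>
    have h1 : φ ⟨f^[k+1] x, mfderiv I3 I3 f^[k+1] x v⟩
        = φ ⟨(f ∘ f^[k]) x, mfderiv I3 I3 (f ∘ f^[k]) x v⟩ :=
      apply_mfderiv_congr φ (F := f^[k+1]) (G := f ∘ f^[k]) (iterate_succ' f k) x v
    have h2 : mfderiv I3 I3 (f ∘ f^[k]) x v
        = mfderiv I3 I3 f (f^[k] x) (mfderiv I3 I3 f^[k] x v) :=
      mfderiv_comp_apply x ((hf _).mdifferentiableAt (by simp))
        ((hit k x).mdifferentiableAt (by simp)) v
    rw [h1, h2]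
    have h3 := h (f^[k] x) (mfderiv I3 I3 f^[k] x v)
    have h4 : φ ⟨(f ∘ f^[k]) x, mfderiv I3 I3 f (f^[k] x) (mfderiv I3 I3 f^[k] x v)⟩
        = φ ⟨f (f^[k] x), mfderiv I3 I3 f (f^[k] x) (mfderiv I3 I3 f^[k] x v)⟩ := rfl
    rw [h4, h3, ih, pow_succ]
    ring

omit [IsManifold I3 ω M] [IsManifold I3 ω M'] in
theorem pull_scale {φ : TangentBundle I3 M → ℝ} {c : ℝ} {F : M → M} {p : M' → M} {g : M' → M'}
    (hF : ContMDiff I3 I3 ω F) (hp : ContMDiff I3 I3 ω p) (hg : ContMDiff I3 I3 ω g)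
    (hpg : ∀ y, p (g y) = F (p y))
    (h : ∀ (x : M) (v : TangentSpace I3 x), φ ⟨F x, mfderiv I3 I3 F x v⟩ = c * φ ⟨x, v⟩)
    (y : M') (v : TangentSpace I3 y) :
    pull φ p ⟨g y, mfderiv I3 I3 g y v⟩ = c * pull φ p ⟨y, v⟩ := by
  rw [pull_mk, pull_mk]
  have h1 : mfderiv I3 I3 p (g y) (mfderiv I3 I3 g y v) = mfderiv I3 I3 (p ∘ g) y v :=
    (mfderiv_comp_apply y ((hp _).mdifferentiableAt (by simp))
      ((hg y).mdifferentiableAt (by simp)) v).symm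
  have h2 : mfderiv I3 I3 (F ∘ p) y v = mfderiv I3 I3 F (p y) (mfderiv I3 I3 p y v) :=
    mfderiv_comp_apply y ((hF _).mdifferentiableAt (by simp))
      ((hp y).mdifferentiableAt (by simp)) v
  have h3 : φ ⟨(p ∘ g) y, mfderiv I3 I3 (p ∘ g) y v⟩ = φ ⟨(F ∘ p) y, mfderiv I3 I3 (F ∘ p) y v⟩ :=
    apply_mfderiv_congr φ (funext hpg) y v
  have h4 : φ ⟨p (g y), mfderiv I3 I3 p (g y) (mfderiv I3 I3 g y v)⟩
      = φ ⟨(p ∘ g) y, mfderiv I3 I3 (p ∘ g) y v⟩ := by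
    rw [h1]; rfl
  rw [h4, h3, h2]
  exact h (p y) (mfderiv I3 I3 p y v)

end HolPH
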