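import Mathlib

/-!
# Descent along surjective local diffeomorphisms
-/

open scoped Manifold ContDiff Topology
open Set Filter Bundle

noncomputable section

namespace HolPH

variable {𝕜 : Type*} [NontriviallyNormedField 𝕜] {E : Type*} [NormedAddCommGroup E]
  [NormedSpace 𝕜 E] {H : Type*} [TopologicalSpace H] {I : ModelWithCorners 𝕜 E H}
  {F : Type*} [NormedAddCommGroup F] [NormedSpace 𝕜 F] {H' : Type*} [TopologicalSpace H']
  {J : ModelWithCorners 𝕜 F H'} {n : WithTop ℕ∞}
  {N : Type*} [TopologicalSpace N] [ChartedSpace H N] [IsManifold I n N]
  {M : Type*} [TopologicalSpace M] [ChartedSpace H' M] [IsManifold J n M]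

/-- A function on the tangent bundle of the base is continuous if its pull-back is. -/
theorem continuous_of_comp_tangentMap [IsManifold I 1 N] [IsManifold J 1 M] {q : N → M}
    (hq : IsLocalDiffeomorph I J n q) (hn : 1 ≤ n)
    (hs : Function.Surjective q) {Z : Type*} [TopologicalSpace Z] (G : TangentBundle J M → Z)
    (hG : Continuous (fun p : TangentBundle I N => G (tangentMap I J q p))) : Continuous G := by
  have hn0 : n ≠ 0 := by
    rintro rfl; simp at hn
  rw [continuous_iff_continuousAt]
  rintro ⟨m, v⟩
  obtain ⟨a, rfl⟩ := hs m
  set s := (hq a).localInverse with hsdef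
  have hU : IsOpen s.source := s.open_source
  have ha : q a ∈ s.source := (hq a).localInverse_mem_source
  have hsU : ContMDiffOn J I n s s.source := (hq a).localInverse_contMDiffOn
  have hcont := hsU.continuousOn_tangentMapWithin hn hU.uniqueMDiffOn
  have hpre : IsOpen (π F (TangentSpace J : M → Type _) ⁻¹' s.source) :=
    hU.preimage (FiberBundle.continuous_proj F (TangentSpace J))
  have h1 : ContinuousOn (fun p => G (tangentMap I J q (tangentMapWithin J I s s.source p)))
      (π F (TangentSpace J : M → Type _) ⁻¹' s.source) := hG.comp_continuousOn hcont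
  have h2 : EqOn (fun p => G (tangentMap I J q (tangentMapWithin J I s s.source p))) G
      (π F (TangentSpace J : M → Type _) ⁻¹' s.source) := by
    intro p hp
    have hp' : p.1 ∈ s.source := hp
    have e1 : tangentMapWithin J J (q ∘ s) s.source p = p := by
      have hcg : ∀ x ∈ s.source, (q ∘ s) x = id x :=
        fun x hx => (hq a).localInverse_right_inv hx
      rw [tangentMapWithin_congr hcg p hp']
      exact tangentMapWithin_id (hU.uniqueMDiffWithinAt hp')
    have e2 : tangentMapWithin J J (q ∘ s) s.source p
        = tangentMapWithin I J q univ (tangentMapWithin J I s s.source p) := by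
      refine tangentMapWithin_comp_at p ?_ ?_ (by simp) (hU.uniqueMDiffWithinAt hp')
      · rw [mdifferentiableWithinAt_univ]
        exact (hq.mdifferentiable hn0) _
      · exact (hsU p.1 hp').mdifferentiableWithinAt hn0
    rw [tangentMapWithin_univ] at e2
    show G (tangentMap I J q (tangentMapWithin J I s s.source p)) = G p
    rw [← e2, e1]
  have h3 := h1.congr h2.symm
  exact h3.continuousAt (hpre.mem_nhds ha)

end HolPH
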